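import Mathlib

/-!
# Comparison of the means of `|G|^2` over parts of a rectangle
-/

set_option autoImplicit false

open MeasureTheory Set Filter Topology
open scoped ENNReal

namespace Pool.Agent.Q92.DT

/-- Cauchy-Schwarz. -/
theorem sq_lint_le {α : Type*} [MeasurableSpace α] {μ : Measure α} {g : α → ℝ≥0∞} (hg : AEMeasurable g μ) :
    (∫⁻ t, g t ∂μ) ^ 2 ≤ μ univ * ∫⁻ t, g t ^ 2 ∂μ := by
  have h := ENNReal.lintegral_mul_le_Lp_mul_Lq μ (p := 2) (q := 2) Real.HolderConjugate.two_two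
    (f := fun _ => 1) (g := g) aemeasurable_const hg
  simp only [Pi.mul_apply, one_mul, ENNReal.one_rpow, lintegral_const] at h
  have h2 := pow_le_pow_left' h 2
  refine h2.trans (le_of_eq ?_)
  rw [mul_pow, ← ENNReal.rpow_natCast, ← ENNReal.rpow_natCast, ← ENNReal.rpow_mul, ← ENNReal.rpow_mul]
  norm_num

/-- one-dimensional difference bound -/
theorem diff_sq_le {f f' : ℝ → ℂ} {a b : ℝ} (hf : ∀ x ∈ Ioo a b, HasDerivAt f (f' x) x)
    (hc : ContinuousOn f' (Ioo a b)) {x y : ℝ} (hx : x ∈ Ioo a b) (hy : y ∈ Ioo a b) :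
    ‖f x - f y‖ₑ ^ 2 ≤ ENNReal.ofReal (b - a) * ∫⁻ t in Ioo a b, ‖f' t‖ₑ ^ 2 := by
  wlog hxy : y ≤ x generalizing x y
  · have h := this hy hx (le_of_not_ge hxy)
    rw [← enorm_neg, neg_sub]
    exact h
  have hsub : Icc y x ⊆ Ioo a b := Icc_subset_Ioo hy.1 hx.2
  have hi : IntervalIntegrable f' volume y x := by
    apply ContinuousOn.intervalIntegrable
    rw [uIcc_of_le hxy]
    exact hc.mono hsub
  have h1 : ∫ t in y..x, f' t = f x - f y := by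
    apply intervalIntegral.integral_eq_sub_of_hasDerivAt _ hi
    intro t ht
    rw [uIcc_of_le hxy] at ht
    exact hf t (hsub ht)
  have h2 : ‖f x - f y‖ₑ ≤ ∫⁻ t in Ioo a b, ‖f' t‖ₑ := by
    rw [← h1, intervalIntegral.integral_of_le hxy]
    refine (enorm_integral_le_lintegral_enorm _).trans ?_
    exact lintegral_mono_set (Ioc_subset_Icc_self.trans hsub)
  have hm : AEMeasurable (fun t => ‖f' t‖ₑ) (volume.restrict (Ioo a b)) :=
    (hc.aemeasurable measurableSet_Ioo).enorm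
  have h3 := sq_lint_le hm
  rw [Measure.restrict_apply_univ, Real.volume_Ioo] at h3
  exact (pow_le_pow_left' h2 2).trans h3

theorem enorm_sq_le (u v : ℂ) : ‖u‖ₑ ^ 2 ≤ 2 * ‖v‖ₑ ^ 2 + 2 * ‖u - v‖ₑ ^ 2 := by
  have h : ‖u‖ ^ 2 ≤ 2 * ‖v‖ ^ 2 + 2 * ‖u - v‖ ^ 2 := by
    have h1 : ‖u‖ ≤ ‖v‖ + ‖u - v‖ := by
      have := norm_add_le v (u - v)
      rwa [add_sub_cancel] at this
    have h0 := norm_nonneg u
    nlinarith [sq_nonneg (‖v‖ - ‖u - v‖), norm_nonneg v, norm_nonneg (u - v)]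
  have h2 := ENNReal.ofReal_le_ofReal h
  rw [ENNReal.ofReal_add (by positivity) (by positivity), ENNReal.ofReal_mul (by norm_num),
    ENNReal.ofReal_mul (by norm_num), ENNReal.ofReal_pow (norm_nonneg _), ENNReal.ofReal_pow (norm_nonneg _),
    ENNReal.ofReal_pow (norm_nonneg _), ofReal_norm, ofReal_norm, ofReal_norm] at h2
  simpa using h2

/-- the comparison on a line -/
theorem line_cmp {f f' : ℝ → ℂ} {a b : ℝ} (hf : ∀ x ∈ Ioo a b, HasDerivAt f (f' x) x)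
    (hc : ContinuousOn f' (Ioo a b)) {s t : Set ℝ} (hs : s ⊆ Ioo a b) (ht : t ⊆ Ioo a b)
    (hsm : MeasurableSet s) (htm : MeasurableSet t) :
    volume t * ∫⁻ x in s, ‖f x‖ₑ ^ 2 ≤ 2 * volume s * (∫⁻ x in t, ‖f x‖ₑ ^ 2) +
      2 * volume s * volume t * (ENNReal.ofReal (b - a) * ∫⁻ x in Ioo a b, ‖f' x‖ₑ ^ 2) := by
  obtain ⟨D, hD⟩ : ∃ D, D = ENNReal.ofReal (b - a) * ∫⁻ x in Ioo a b, ‖f' x‖ₑ ^ 2 := ⟨_, rfl⟩
  rw [← hD]
  have hfc : ContinuousOn f (Ioo a b) := fun x hx => (hf x hx).continuousAt.continuousWithinAt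
  have hfm : AEMeasurable (fun x => ‖f x‖ₑ ^ 2) (volume.restrict t) :=
    (((hfc.mono ht).aemeasurable htm).enorm).pow_const 2
  have h1 : ∀ x ∈ s, volume t * ‖f x‖ₑ ^ 2 ≤ 2 * (∫⁻ y in t, ‖f y‖ₑ ^ 2) + 2 * D * volume t := by
    intro x hx
    calc volume t * ‖f x‖ₑ ^ 2 = ∫⁻ y in t, ‖f x‖ₑ ^ 2 := by rw [setLIntegral_const, mul_comm]
      _ ≤ ∫⁻ y in t, (2 * ‖f y‖ₑ ^ 2 + 2 * D) := by
          refine setLIntegral_mono' htm fun y hy => ?_
          refine (enorm_sq_le (f x) (f y)).trans ?_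
          gcongr
          rw [hD]
          exact diff_sq_le hf hc (hs hx) (ht hy)
      _ = 2 * (∫⁻ y in t, ‖f y‖ₑ ^ 2) + 2 * D * volume t := by
          rw [lintegral_add_right _ measurable_const, lintegral_const_mul' _ _ (by norm_num), setLIntegral_const]
  calc volume t * ∫⁻ x in s, ‖f x‖ₑ ^ 2 ≤ ∫⁻ x in s, volume t * ‖f x‖ₑ ^ 2 := lintegral_const_mul_le _ _
    _ ≤ ∫⁻ x in s, (2 * (∫⁻ y in t, ‖f y‖ₑ ^ 2) + 2 * D * volume t) := setLIntegral_mono' hsm h1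
    _ = _ := by
        rw [setLIntegral_const]
        ring

/-- the comparison on a rectangle, with iterated integrals -/
theorem prod_cmp {F F' : ℝ → ℝ → ℂ} {a b : ℝ} {J : Set ℝ} (hJ : MeasurableSet J)
    (hF : ∀ y ∈ J, ∀ x ∈ Ioo a b, HasDerivAt (fun x => F x y) (F' x y) x)
    (hc : ContinuousOn (fun p : ℝ × ℝ => F p.1 p.2) (Ioo a b ×ˢ J))
    (hc' : ContinuousOn (fun p : ℝ × ℝ => F' p.1 p.2) (Ioo a b ×ˢ J))
    {s t : Set ℝ} (hs : s ⊆ Ioo a b) (ht : t ⊆ Ioo a b)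
    (hsm : MeasurableSet s) (htm : MeasurableSet t) (htf : volume t ≠ ∞) (hsf : volume s ≠ ∞) :
    volume t * ∫⁻ y in J, ∫⁻ x in s, ‖F x y‖ₑ ^ 2 ≤ 2 * volume s * (∫⁻ y in J, ∫⁻ x in t, ‖F x y‖ₑ ^ 2) +
      2 * volume s * volume t * (ENNReal.ofReal (b - a) * ∫⁻ y in J, ∫⁻ x in Ioo a b, ‖F' x y‖ₑ ^ 2) := by
  have hmt : AEMeasurable (fun p : ℝ × ℝ => ‖F p.1 p.2‖ₑ ^ 2)
      ((volume.restrict t).prod (volume.restrict J)) := by
    rw [Measure.prod_restrict]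
    exact (((hc.mono (prod_mono ht le_rfl)).aemeasurable (htm.prod hJ)).enorm).pow_const 2
  have hm1 : AEMeasurable (fun y => ∫⁻ x in t, ‖F x y‖ₑ ^ 2) (volume.restrict J) :=
    hmt.lintegral_prod_left'
  calc volume t * ∫⁻ y in J, ∫⁻ x in s, ‖F x y‖ₑ ^ 2 = ∫⁻ y in J, volume t * ∫⁻ x in s, ‖F x y‖ₑ ^ 2 := by
        rw [lintegral_const_mul' _ _ htf]
    _ ≤ ∫⁻ y in J, (2 * volume s * (∫⁻ x in t, ‖F x y‖ₑ ^ 2) +
      2 * volume s * volume t * (ENNReal.ofReal (b - a) * ∫⁻ x in Ioo a b, ‖F' x y‖ₑ ^ 2)) := by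
        refine setLIntegral_mono' hJ fun y hy => ?_
        exact line_cmp (f := fun x => F x y) (f' := fun x => F' x y) (hF y hy)
          (hc'.comp (f := fun x : ℝ => (x, y)) (by fun_prop) fun x hx => ⟨hx, hy⟩) hs ht hsm htm
    _ = _ := by
        rw [lintegral_add_left' (hm1.const_mul _), lintegral_const_mul' _ _ (by finiteness),
          lintegral_const_mul' _ _ (by finiteness), lintegral_const_mul' _ _ (by finiteness)]

/-- Tonelli for rectangles -/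
theorem lint_reProdIm {s J : Set ℝ} {g : ℂ → ℝ≥0∞}
    (hg : AEMeasurable g (volume.restrict (s ×ℂ J))) :
    ∫⁻ z in s ×ℂ J, g z = ∫⁻ y in J, ∫⁻ x in s, g (⟨x, y⟩ : ℂ) ∧
    ∫⁻ z in s ×ℂ J, g z = ∫⁻ x in s, ∫⁻ y in J, g (⟨x, y⟩ : ℂ) := by
  have hmp := Complex.volume_preserving_equiv_real_prod.symm
  have hpre : Complex.measurableEquivRealProd.symm ⁻¹' (s ×ℂ J) = s ×ˢ J := by
    ext p
    simp [Complex.mem_reProdIm, Complex.measurableEquivRealProd_symm_apply]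
  have hmp2 : MeasurePreserving Complex.measurableEquivRealProd.symm ((volume : Measure (ℝ × ℝ)).restrict (s ×ˢ J))
      (volume.restrict (s ×ℂ J)) := by
    rw [← hpre]
    exact hmp.restrict_preimage_emb Complex.measurableEquivRealProd.symm.measurableEmbedding _
  have h1 : ∫⁻ z in s ×ℂ J, g z = ∫⁻ p in s ×ˢ J, g (⟨p.1, p.2⟩ : ℂ) := by
    rw [← hmp2.lintegral_comp_emb Complex.measurableEquivRealProd.symm.measurableEmbedding]
    rfl
  have hg2 : AEMeasurable (fun p : ℝ × ℝ => g (⟨p.1, p.2⟩ : ℂ))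
      ((volume.restrict s).prod (volume.restrict J)) := by
    rw [Measure.prod_restrict, ← Measure.volume_eq_prod]
    exact hg.comp_quasiMeasurePreserving hmp2.quasiMeasurePreserving
  rw [h1, Measure.volume_eq_prod, ← Measure.prod_restrict]
  exact ⟨lintegral_prod_symm _ hg2, lintegral_prod _ hg2⟩

/-- The integral of `|G|^2` over `S`. -/
noncomputable def E2 (G : ℂ → ℂ) (S : Set ℂ) : ℝ≥0∞ := ∫⁻ z in S, ‖G z‖ₑ ^ 2

theorem E2_mono {G : ℂ → ℂ} {S T : Set ℂ} (h : S ⊆ T) : E2 G S ≤ E2 G T := lintegral_mono_set h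

theorem aem {G : ℂ → ℂ} {W : Set ℂ} (hG : ContinuousOn G W) {S : Set ℂ} (hS : S ⊆ W) (hSm : MeasurableSet S) :
    AEMeasurable (fun z => ‖G z‖ₑ ^ 2) (volume.restrict S) :=
  (((hG.mono hS).aemeasurable hSm).enorm).pow_const 2

theorem hasDeriv_x {G : ℂ → ℂ} {x y : ℝ} (h : DifferentiableAt ℂ G (⟨x, y⟩ : ℂ)) :
    HasDerivAt (fun x : ℝ => G (⟨x, y⟩ : ℂ)) (deriv G ⟨x, y⟩) x := by
  have h1 : HasDerivAt (fun x : ℝ => (⟨x, y⟩ : ℂ)) 1 x := by
    have : (fun x : ℝ => (⟨x, y⟩ : ℂ)) = fun x : ℝ => (x : ℂ) + (y : ℂ) * Complex.I := by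
      funext x
      apply Complex.ext <;> simp
    rw [this]
    exact (Complex.ofRealCLM.hasDerivAt (x := x)).add_const _
  have h2 := HasDerivAt.comp (h := fun x : ℝ => (⟨x, y⟩ : ℂ)) x h.hasDerivAt h1
  rw [mul_one] at h2
  exact h2

theorem hasDeriv_y {G : ℂ → ℂ} {x y : ℝ} (h : DifferentiableAt ℂ G (⟨x, y⟩ : ℂ)) :
    HasDerivAt (fun y : ℝ => G (⟨x, y⟩ : ℂ)) (deriv G ⟨x, y⟩ * Complex.I) y := by
  have h1 : HasDerivAt (fun y : ℝ => (⟨x, y⟩ : ℂ)) Complex.I y := by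
    have : (fun y : ℝ => (⟨x, y⟩ : ℂ)) = fun y : ℝ => (x : ℂ) + (y : ℂ) * Complex.I := by
      funext y
      apply Complex.ext <;> simp
    rw [this]
    have := ((Complex.ofRealCLM.hasDerivAt (x := y)).mul_const Complex.I).const_add (x : ℂ)
    simpa using this
  exact HasDerivAt.comp (h := fun y : ℝ => (⟨x, y⟩ : ℂ)) y h.hasDerivAt h1

theorem cont_mk : Continuous fun p : ℝ × ℝ => (⟨p.1, p.2⟩ : ℂ) :=
  Complex.equivRealProdCLM.symm.continuous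

theorem cont_mk' : Continuous fun p : ℝ × ℝ => (⟨p.2, p.1⟩ : ℂ) :=
  cont_mk.comp continuous_swap

/-- The comparison in the direction of the real axis. -/
theorem rect_x {G : ℂ → ℂ} {W : Set ℂ} (hW : IsOpen W) (hG : DifferentiableOn ℂ G W) {a b c d : ℝ}
    (hR : Ioo a b ×ℂ Ioo c d ⊆ W) {s t : Set ℝ} (hs : s ⊆ Ioo a b) (ht : t ⊆ Ioo a b)
    (hsm : MeasurableSet s) (htm : MeasurableSet t) :
    volume t * E2 G (s ×ℂ Ioo c d) ≤ 2 * volume s * E2 G (t ×ℂ Ioo c d) +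
      2 * volume s * volume t * (ENNReal.ofReal (b - a) * E2 (deriv G) (Ioo a b ×ℂ Ioo c d)) := by
  have hG' : DifferentiableOn ℂ (deriv G) W := hG.deriv hW
  have hfin : ∀ u : Set ℝ, u ⊆ Ioo a b → volume u ≠ ∞ := fun u hu =>
    ((measure_mono hu).trans_lt (by rw [Real.volume_Ioo]; exact ENNReal.ofReal_lt_top)).ne
  have hmeas : ∀ u : Set ℝ, MeasurableSet u → MeasurableSet (u ×ℂ Ioo c d) := fun u hu =>
    (Complex.measurable_re hu).inter (Complex.measurable_im measurableSet_Ioo)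
  have hsub : ∀ u : Set ℝ, u ⊆ Ioo a b → u ×ℂ Ioo c d ⊆ W := fun u hu =>
    (Complex.reProdIm_subset_iff.2 (prod_mono hu le_rfl)).trans hR
  have hmaps : MapsTo (fun p : ℝ × ℝ => (⟨p.1, p.2⟩ : ℂ)) (Ioo a b ×ˢ Ioo c d) W := fun p hp => hR ⟨hp.1, hp.2⟩
  have h := prod_cmp (F := fun x y => G ⟨x, y⟩) (F' := fun x y => deriv G ⟨x, y⟩) (a := a) (b := b)
    (J := Ioo c d) measurableSet_Ioo
    (fun y hy x hx => hasDeriv_x (hG.differentiableAt (hW.mem_nhds (hR ⟨hx, hy⟩))))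
    (hG.continuousOn.comp cont_mk.continuousOn hmaps) (hG'.continuousOn.comp cont_mk.continuousOn hmaps)
    hs ht hsm htm (hfin t ht) (hfin s hs)
  unfold E2
  rw [(lint_reProdIm (aem hG.continuousOn (hsub s hs) (hmeas s hsm))).1,
    (lint_reProdIm (aem hG.continuousOn (hsub t ht) (hmeas t htm))).1,
    (lint_reProdIm
      (aem hG'.continuousOn hR (hmeas _ measurableSet_Ioo))).1]
  exact h

/-- The comparison in the direction of the imaginary axis. -/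
theorem rect_y {G : ℂ → ℂ} {W : Set ℂ} (hW : IsOpen W) (hG : DifferentiableOn ℂ G W) {a b c d : ℝ}
    (hR : Ioo c d ×ℂ Ioo a b ⊆ W) {s t : Set ℝ} (hs : s ⊆ Ioo a b) (ht : t ⊆ Ioo a b)
    (hsm : MeasurableSet s) (htm : MeasurableSet t) :
    volume t * E2 G (Ioo c d ×ℂ s) ≤ 2 * volume s * E2 G (Ioo c d ×ℂ t) +
      2 * volume s * volume t * (ENNReal.ofReal (b - a) * E2 (deriv G) (Ioo c d ×ℂ Ioo a b)) := by
  have hG' : DifferentiableOn ℂ (deriv G) W := hG.deriv hW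
  have hfin : ∀ u : Set ℝ, u ⊆ Ioo a b → volume u ≠ ∞ := fun u hu =>
    ((measure_mono hu).trans_lt (by rw [Real.volume_Ioo]; exact ENNReal.ofReal_lt_top)).ne
  have hmeas : ∀ u : Set ℝ, MeasurableSet u → MeasurableSet (Ioo c d ×ℂ u) := fun u hu =>
    (Complex.measurable_re measurableSet_Ioo).inter (Complex.measurable_im hu)
  have hsub : ∀ u : Set ℝ, u ⊆ Ioo a b → Ioo c d ×ℂ u ⊆ W := fun u hu =>
    (Complex.reProdIm_subset_iff.2 (prod_mono le_rfl hu)).trans hR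
  have hmaps : MapsTo (fun p : ℝ × ℝ => (⟨p.2, p.1⟩ : ℂ)) (Ioo a b ×ˢ Ioo c d) W := fun p hp => hR ⟨hp.2, hp.1⟩
  have h := prod_cmp (F := fun y x => G ⟨x, y⟩) (F' := fun y x => deriv G ⟨x, y⟩ * Complex.I) (a := a) (b := b)
    (J := Ioo c d) measurableSet_Ioo
    (fun x hx y hy => hasDeriv_y (hG.differentiableAt (hW.mem_nhds (hR ⟨hx, hy⟩))))
    (hG.continuousOn.comp cont_mk'.continuousOn hmaps)
    ((hG'.continuousOn.comp cont_mk'.continuousOn hmaps).mul continuousOn_const)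
    hs ht hsm htm (hfin t ht) (hfin s hs)
  have hI : ∀ z : ℂ, ‖z * Complex.I‖ₑ = ‖z‖ₑ := fun z => by
    rw [enorm_mul, ← ofReal_norm Complex.I, Complex.norm_I, ENNReal.ofReal_one, mul_one]
  simp only [hI] at h
  unfold E2
  rw [(lint_reProdIm (aem hG.continuousOn (hsub s hs) (hmeas s hsm))).2,
    (lint_reProdIm (aem hG.continuousOn (hsub t ht) (hmeas t htm))).2,
    (lint_reProdIm
      (aem hG'.continuousOn hR (hmeas _ measurableSet_Ioo))).2]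
  exact h

/-- from the inequality to real numbers -/
theorem real_cmp {X Y Z : ℝ≥0∞} {ls lt L A e : ℝ} (hls : 0 ≤ ls) (hlt : 0 < lt) (hL : 0 ≤ L) (hA : 0 ≤ A) (he : 0 ≤ e)
    (h : ENNReal.ofReal lt * X ≤ 2 * ENNReal.ofReal ls * Y + 2 * ENNReal.ofReal ls * ENNReal.ofReal lt *
      (ENNReal.ofReal L * Z)) (hY : Y ≤ ENNReal.ofReal A) (hZ : Z ≤ ENNReal.ofReal e) :
    X ≤ ENNReal.ofReal (2 * ls / lt * A + 2 * ls * L * e) := by
  have h1 : ENNReal.ofReal lt * X ≤ ENNReal.ofReal lt * ENNReal.ofReal (2 * ls / lt * A + 2 * ls * L * e) := by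
    refine h.trans ?_
    calc 2 * ENNReal.ofReal ls * Y + 2 * ENNReal.ofReal ls * ENNReal.ofReal lt * (ENNReal.ofReal L * Z)
        ≤ 2 * ENNReal.ofReal ls * ENNReal.ofReal A +
          2 * ENNReal.ofReal ls * ENNReal.ofReal lt * (ENNReal.ofReal L * ENNReal.ofReal e) := by gcongr
      _ = ENNReal.ofReal (2 * ls * A + 2 * ls * lt * (L * e)) := by
          rw [ENNReal.ofReal_add (by positivity) (by positivity), ENNReal.ofReal_mul (by positivity),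
            ENNReal.ofReal_mul (by positivity), ENNReal.ofReal_mul (by positivity),
            ENNReal.ofReal_mul (by positivity), ENNReal.ofReal_mul (by positivity),
            ENNReal.ofReal_mul (by positivity)]
          norm_num
      _ = ENNReal.ofReal (lt * (2 * ls / lt * A + 2 * ls * L * e)) := by
          congr 1
          field_simp
      _ = _ := by rw [ENNReal.ofReal_mul hlt.le]
  exact (ENNReal.mul_le_mul_iff_right (by simpa using hlt) ENNReal.ofReal_ne_top).1 h1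

/-- The comparison in the direction of the real axis, with real bounds. -/
theorem cmp_x {G : ℂ → ℂ} {W : Set ℂ} (hW : IsOpen W) (hG : DifferentiableOn ℂ G W) {a b c d s₁ s₂ t₁ t₂ A e : ℝ}
    (hR : Ioo a b ×ℂ Ioo c d ⊆ W) (hs₁ : a ≤ s₁) (hs : s₁ < s₂) (hs₂ : s₂ ≤ b) (ht₁ : a ≤ t₁) (ht : t₁ < t₂)
    (ht₂ : t₂ ≤ b) (hA : 0 ≤ A) (he : 0 ≤ e) (h1 : E2 G (Ioo t₁ t₂ ×ℂ Ioo c d) ≤ ENNReal.ofReal A)
    (h2 : E2 (deriv G) W ≤ ENNReal.ofReal e) :
    E2 G (Ioo s₁ s₂ ×ℂ Ioo c d) ≤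
      ENNReal.ofReal (2 * (s₂ - s₁) / (t₂ - t₁) * A + 2 * (s₂ - s₁) * (b - a) * e) := by
  have h := rect_x hW hG hR (Ioo_subset_Ioo hs₁ hs₂) (Ioo_subset_Ioo ht₁ ht₂) measurableSet_Ioo measurableSet_Ioo
  rw [Real.volume_Ioo, Real.volume_Ioo] at h
  exact real_cmp (by linarith) (by linarith) (by linarith) hA he h h1 ((E2_mono hR).trans h2)

/-- The comparison in the direction of the imaginary axis, with real bounds. -/
theorem cmp_y {G : ℂ → ℂ} {W : Set ℂ} (hW : IsOpen W) (hG : DifferentiableOn ℂ G W) {a b c d s₁ s₂ t₁ t₂ A e : ℝ}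
    (hR : Ioo c d ×ℂ Ioo a b ⊆ W) (hs₁ : a ≤ s₁) (hs : s₁ < s₂) (hs₂ : s₂ ≤ b) (ht₁ : a ≤ t₁) (ht : t₁ < t₂)
    (ht₂ : t₂ ≤ b) (hA : 0 ≤ A) (he : 0 ≤ e) (h1 : E2 G (Ioo c d ×ℂ Ioo t₁ t₂) ≤ ENNReal.ofReal A)
    (h2 : E2 (deriv G) W ≤ ENNReal.ofReal e) :
    E2 G (Ioo c d ×ℂ Ioo s₁ s₂) ≤
      ENNReal.ofReal (2 * (s₂ - s₁) / (t₂ - t₁) * A + 2 * (s₂ - s₁) * (b - a) * e) := by
  have h := rect_y hW hG hR (Ioo_subset_Ioo hs₁ hs₂) (Ioo_subset_Ioo ht₁ ht₂) measurableSet_Ioo measurableSet_Ioo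
  rw [Real.volume_Ioo, Real.volume_Ioo] at h
  exact real_cmp (by linarith) (by linarith) (by linarith) hA he h h1 ((E2_mono hR).trans h2)

end Pool.Agent.Q92.DT
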