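import Pool.Agent.Q92.DT.Geo
import Pool.Agent.Q92.DT.Rect
import Pool.Agent.H158I.BGMV

/-!
# The mean of `|G|^2` over the pieces of the tree
-/

set_option autoImplicit false

open MeasureTheory Set Filter Topology Metric
open scoped ENNReal

namespace Pool.Agent.Q92.DT

theorem r_eq (j : ℕ) : r j = 1024 * 8 ^ j * w j := by
  unfold r w
  have h : ((1 : ℝ) / 16) ^ j = 8 ^ j * (1 / 128) ^ j := by
    rw [← mul_pow]
    norm_num
  rw [h]
  ring

theorem norm_sq_of_enorm {u : ℂ} {a b : ℝ} (ha : 0 < a) (h : ‖u‖ₑ ^ 2 * ENNReal.ofReal a ≤ ENNReal.ofReal b)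
    (hb : 0 ≤ b) : ‖u‖ ^ 2 ≤ b / a := by
  rw [← ofReal_norm, ← ENNReal.ofReal_pow (norm_nonneg _), ← ENNReal.ofReal_mul (by positivity)] at h
  have h2 := (ENNReal.ofReal_le_ofReal_iff hb).1 h
  rw [le_div_iff₀ ha]
  exact h2

/-- the pointwise bound near the base point -/
theorem near {G : ℂ → ℂ} {W : Set ℂ} (hW : IsOpen W) (hG : DifferentiableOn ℂ G W) {z₀ : ℂ} {δ N : ℝ} (hδ : 0 < δ)
    (hb : ball z₀ (2 * δ) ⊆ W) (hN : ‖G z₀‖ ^ 2 ≤ N) (hE : E2 (deriv G) W ≤ ENNReal.ofReal N) :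
    ∀ z ∈ ball z₀ δ, ‖G z‖ ^ 2 ≤ 4 * N := by
  have hN0 : 0 ≤ N := le_trans (by positivity) hN
  have hG' : DifferentiableOn ℂ (deriv G) W := hG.deriv hW
  have hsub : ∀ z ∈ ball z₀ δ, ball z δ ⊆ W := fun z hz => (ball_subset_ball' (by
    have := mem_ball.1 hz
    linarith)).trans hb
  have hd : ∀ z ∈ ball z₀ δ, ‖deriv G z‖ ≤ Real.sqrt N / δ := by
    intro z hz
    have h1 := Pool.Agent.H158I.BGMV.taskMV ℂ volume z δ (deriv G) hδ (hG'.mono (hsub z hz))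
    have h2 : ∫⁻ y in ball z δ, ‖deriv G y‖ₑ ^ 2 ≤ ENNReal.ofReal N := (E2_mono (hsub z hz)).trans hE
    have h3 := h1.trans h2
    rw [Complex.volume_ball, ← ENNReal.ofReal_pow hδ.le] at h3
    have h4 : ENNReal.ofReal (δ ^ 2) ≤ ENNReal.ofReal (δ ^ 2) * NNReal.pi := by
      refine le_mul_of_one_le_right' ?_
      have : (1 : ℝ) ≤ Real.pi := by linarith [Real.pi_gt_three]
      exact_mod_cast (show (1 : NNReal) ≤ NNReal.pi from this)
    have h5 : ‖deriv G z‖ₑ ^ 2 * ENNReal.ofReal (δ ^ 2) ≤ ENNReal.ofReal N := le_trans (by gcongr) h3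
    have h6 := norm_sq_of_enorm (by positivity) h5 hN0
    rw [← Real.sqrt_sq (norm_nonneg (deriv G z)), ← Real.sqrt_sq hδ.le, ← Real.sqrt_div' _ (by positivity)]
    exact Real.sqrt_le_sqrt h6
  intro z hz
  have h7 : ‖G z - G z₀‖ ≤ Real.sqrt N / δ * ‖z - z₀‖ := by
    refine (convex_ball z₀ δ).norm_image_sub_le_of_norm_deriv_le (𝕜 := ℂ) (fun y hy => ?_) hd (mem_ball_self hδ) hz
    exact hG.differentiableAt (hW.mem_nhds (hsub y hy (mem_ball_self hδ)))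
  have h8 : ‖G z - G z₀‖ ≤ Real.sqrt N := by
    refine h7.trans ?_
    have h9 : ‖z - z₀‖ ≤ δ := by
      have := mem_ball.1 hz
      rw [dist_eq_norm] at this
      exact this.le
    calc Real.sqrt N / δ * ‖z - z₀‖ ≤ Real.sqrt N / δ * δ := by gcongr
      _ = Real.sqrt N := by field_simp
  have h10 : ‖G z‖ ≤ ‖G z₀‖ + ‖G z - G z₀‖ := by
    have := norm_add_le (G z₀) (G z - G z₀)
    rwa [add_sub_cancel] at this
  have h11 : ‖G z - G z₀‖ ^ 2 ≤ N := by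
    calc _ ≤ Real.sqrt N ^ 2 := pow_le_pow_left₀ (norm_nonneg _) h8 2
      _ = N := Real.sq_sqrt hN0
  nlinarith [sq_nonneg (‖G z₀‖ - ‖G z - G z₀‖), norm_nonneg (G z), norm_nonneg (G z₀), norm_nonneg (G z - G z₀)]

/-- a bounded function on a small set -/
theorem E2_le_of_bound {G : ℂ → ℂ} {S : Set ℂ} {B : ℝ} (hS : MeasurableSet S) (hB : ∀ z ∈ S, ‖G z‖ ^ 2 ≤ B)
    (hB0 : 0 ≤ B) {a : ℝ} (ha : volume S ≤ ENNReal.ofReal a) : E2 G S ≤ ENNReal.ofReal (B * a) := by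
  unfold E2
  calc ∫⁻ z in S, ‖G z‖ₑ ^ 2 ≤ ∫⁻ z in S, ENNReal.ofReal B := by
        refine setLIntegral_mono' hS fun z hz => ?_
        rw [← ofReal_norm, ← ENNReal.ofReal_pow (norm_nonneg _)]
        exact ENNReal.ofReal_le_ofReal (hB z hz)
    _ = ENNReal.ofReal B * volume S := by rw [setLIntegral_const]
    _ ≤ ENNReal.ofReal B * ENNReal.ofReal a := by gcongr
    _ = ENNReal.ofReal (B * a) := by rw [ENNReal.ofReal_mul hB0]

theorem vol_rect {a b c d : ℝ} (h : a ≤ b) : volume (Ioo a b ×ℂ Ioo c d) = ENNReal.ofReal ((b - a) * (d - c)) := by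
  have hm : MeasurableSet (Ioo a b ×ℂ Ioo c d) :=
    (Complex.measurable_re measurableSet_Ioo).inter (Complex.measurable_im measurableSet_Ioo)
  have h1 : volume (Ioo a b ×ℂ Ioo c d) = ∫⁻ z in Ioo a b ×ℂ Ioo c d, 1 := by simp
  rw [h1, (lint_reProdIm (g := fun _ => 1) aemeasurable_const).1]
  simp only [lintegral_const, Measure.restrict_apply_univ, Real.volume_Ioo, one_mul]
  rw [← ENNReal.ofReal_mul (by linarith)]

/-- the square at the foot of the tube `(j, k)` -/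
noncomputable def S (j k : ℕ) : Set ℂ := Ioo (r (j + 1)) (r (j + 1) + w j) ×ℂ Ioo (c j k) (c j k + w j)

theorem S_sub (j k : ℕ) : S j k ⊆ P j k := by
  rintro z ⟨⟨h1, h2⟩, h3, h4⟩
  refine Or.inl ⟨⟨h1, ?_⟩, h3, h4⟩
  have := r_succ j
  have := w_pos j
  have := r_pos (j + 1)
  nlinarith

theorem root_est : ∃ K : ℝ, 0 < K ∧ ∀ (G : ℂ → ℂ) (N : ℝ), DifferentiableOn ℂ G Dom → ‖G (p 0 0)‖ ^ 2 ≤ N →
    E2 (deriv G) Dom ≤ ENNReal.ofReal N → E2 G (S 0 0) ≤ ENNReal.ofReal (K * N) := by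
  obtain ⟨ω, hω⟩ : ∃ ω, ω = w 0 := ⟨_, rfl⟩
  have hω0 : 0 < ω := hω ▸ w_pos 0
  refine ⟨4 * ω ^ 2 + 4 * ω ^ 2 + 2 * ω ^ 2 + 100 * ω ^ 2 + 100, by positivity, ?_⟩
  intro G N hG hN hE
  have hN0 : 0 ≤ N := le_trans (by positivity) hN
  have hSD : S 0 0 ⊆ Dom := (S_sub 0 0).trans (P_sub (by simp))
  have hball : ball (p 0 0) (2 * (ω / 4)) ⊆ Dom := by
    refine Subset.trans ?_ hSD
    intro z hz
    have h1 := mem_ball.1 hz
    rw [dist_eq_norm] at h1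
    have h2 := (Complex.abs_re_le_norm (z - p 0 0)).trans_lt h1
    have h3 := (Complex.abs_im_le_norm (z - p 0 0)).trans_lt h1
    rw [abs_lt] at h2 h3
    simp only [p, Complex.sub_re, Complex.sub_im, ← hω] at h2 h3
    refine ⟨⟨?_, ?_⟩, ?_, ?_⟩
    · show r (0 + 1) < z.re
      linarith [h2.1]
    · show z.re < r (0 + 1) + w 0
      rw [← hω]
      linarith [h2.2]
    · show c 0 0 < z.im
      linarith [h3.1]
    · show z.im < c 0 0 + w 0
      rw [← hω]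
      linarith [h3.2]
  have hn := near isOpen_Dom hG (by positivity : 0 < ω / 4) hball hN hE
  -- the small square
  obtain ⟨x0, hx0⟩ : ∃ x0, x0 = (p 0 0).re := ⟨_, rfl⟩
  obtain ⟨y0, hy0⟩ : ∃ y0, y0 = (p 0 0).im := ⟨_, rfl⟩
  have hx : x0 = r (0 + 1) + ω / 2 := by rw [hx0, hω]; rfl
  have hy : y0 = c 0 0 + ω / 2 := by rw [hy0, hω]; rfl
  have hq : ∀ z ∈ Ioo (x0 - ω / 8) (x0 + ω / 8) ×ℂ Ioo (y0 - ω / 8) (y0 + ω / 8), ‖G z‖ ^ 2 ≤ 4 * N := by
    rintro z ⟨⟨h1, h2⟩, h3, h4⟩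
    apply hn
    rw [mem_ball, dist_eq_norm]
    have h5 : |(z - p 0 0).re| < ω / 8 := by
      rw [abs_lt, Complex.sub_re, ← hx0]
      exact ⟨by linarith, by linarith⟩
    have h6 : |(z - p 0 0).im| < ω / 8 := by
      rw [abs_lt, Complex.sub_im, ← hy0]
      exact ⟨by linarith, by linarith⟩
    have := Complex.norm_le_abs_re_add_abs_im (z - p 0 0)
    linarith
  have e0 := E2_le_of_bound (S := Ioo (x0 - ω / 8) (x0 + ω / 8) ×ℂ Ioo (y0 - ω / 8) (y0 + ω / 8)) (a := (ω / 4) ^ 2)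
    ((Complex.measurable_re measurableSet_Ioo).inter (Complex.measurable_im measurableSet_Ioo)) hq (by linarith)
    ((vol_rect (by linarith)).le.trans (ENNReal.ofReal_le_ofReal (by nlinarith)))
  have hsub2 : Ioo (r (0 + 1)) (r (0 + 1) + ω) ×ℂ Ioo (y0 - ω / 8) (y0 + ω / 8) ⊆ Dom := by
    refine Subset.trans ?_ hSD
    rintro z ⟨⟨h1, h2⟩, h3, h4⟩
    exact ⟨⟨h1, by rw [← hω]; exact h2⟩, by linarith, by rw [← hω]; linarith⟩
  have e1 := cmp_x isOpen_Dom hG (a := r (0 + 1)) (b := r (0 + 1) + ω) (c := y0 - ω / 8) (d := y0 + ω / 8)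
    (s₁ := r (0 + 1)) (s₂ := r (0 + 1) + ω) (t₁ := x0 - ω / 8) (t₂ := x0 + ω / 8) hsub2 le_rfl (by linarith) le_rfl
    (by linarith) (by linarith) (by linarith) (by positivity) hN0 e0 hE
  have hSr : S 0 0 = Ioo (r (0 + 1)) (r (0 + 1) + ω) ×ℂ Ioo (c 0 0) (c 0 0 + ω) := by rw [hω]; rfl
  have e2 := cmp_y isOpen_Dom hG (a := c 0 0) (b := c 0 0 + ω) (c := r (0 + 1)) (d := r (0 + 1) + ω)
    (s₁ := c 0 0) (s₂ := c 0 0 + ω) (t₁ := y0 - ω / 8) (t₂ := y0 + ω / 8) (by rw [← hSr]; exact hSD) le_rfl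
    (by linarith) le_rfl (by linarith) (by linarith) (by linarith) ?_ hN0 e1 hE
  · rw [hSr]
    refine e2.trans (ENNReal.ofReal_le_ofReal ?_)
    have f1 : r (0 + 1) + ω - r (0 + 1) = ω := by ring
    have f2 : c 0 0 + ω - c 0 0 = ω := by ring
    have f3 : x0 + ω / 8 - (x0 - ω / 8) = ω / 4 := by ring
    have f4 : y0 + ω / 8 - (y0 - ω / 8) = ω / 4 := by ring
    rw [f1, f2, f3, f4]
    have f5 : 2 * ω / (ω / 4) = 8 := by field_simp; norm_num
    rw [f5]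
    nlinarith [mul_nonneg (sq_nonneg ω) hN0]
  · have f1 : r (0 + 1) + ω - r (0 + 1) = ω := by ring
    have f3 : x0 + ω / 8 - (x0 - ω / 8) = ω / 4 := by ring
    rw [f1, f3]
    positivity

theorem V_sub (j k : ℕ) : V j k ⊆ P j k := subset_union_left
theorem H_sub (j k : ℕ) : H j k ⊆ P j k := subset_union_right

theorem S_est : ∃ K : ℝ, 0 < K ∧ ∀ (G : ℂ → ℂ) (N : ℝ), DifferentiableOn ℂ G Dom → ‖G (p 0 0)‖ ^ 2 ≤ N →
    E2 (deriv G) Dom ≤ ENNReal.ofReal N → ∀ j k, k < 16 ^ j →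
    E2 G (S j k) ≤ ENNReal.ofReal (K * 8 ^ j * w j ^ 2 * N) := by
  obtain ⟨K0, hK0, hroot⟩ := root_est
  obtain ⟨K, hK⟩ : ∃ K, K = K0 * 1024 ^ 2 + 7168 := ⟨_, rfl⟩
  have hK7 : 7168 ≤ K := by rw [hK]; nlinarith
  refine ⟨K, by linarith, ?_⟩
  intro G N hG hN hE j
  have hN0 : 0 ≤ N := le_trans (by positivity) hN
  induction j with
  | zero =>
    intro k hk
    have : k = 0 := by simpa using hk
    subst this
    refine (hroot G N hG hN hE).trans (ENNReal.ofReal_le_ofReal ?_)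
    have hw : w 0 = 1 / 1024 := by simp [w]
    rw [hw, pow_zero, mul_one]
    have : K0 ≤ K * (1 / 1024) ^ 2 := by rw [hK]; nlinarith
    nlinarith
  | succ j ih =>
    intro k hk
    have hk' := div_lt hk
    have hA := ih (k / 16) hk'
    obtain ⟨A, hAd⟩ : ∃ A, A = K * 8 ^ j * w j ^ 2 * N := ⟨_, rfl⟩
    rw [← hAd] at hA
    have hA0 : 0 ≤ A := by
      rw [hAd]
      have : 0 ≤ K := by linarith
      positivity
    have w1 := w_pos (j + 1)
    have w0 := w_pos j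
    have ws := w_succ j
    have r1 := r_pos (j + 1)
    have rs := r_succ j
    have rs2 := r_succ (j + 1)
    have r2 := r_pos (j + 1 + 1)
    -- positions
    have hc1 : (k / 16 : ℕ) * r j ≤ c (j + 1) k := by
      have h5 := c_lo (j + 1) k
      refine le_trans ?_ h5.le
      rw [rs]
      have h6 : ((16 * (k / 16) : ℕ) : ℝ) ≤ (k : ℝ) := by exact_mod_cast Nat.mul_div_le k 16
      push_cast at h6
      nlinarith
    have hc2 : c (j + 1) k + w (j + 1) ≤ ((k / 16 : ℕ) + 1) * r j := by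
      have h5 := c_hi (j + 1) k
      refine le_trans h5.le ?_
      rw [rs]
      have h7 : k + 1 ≤ 16 * (k / 16 + 1) := by omega
      have h6 : ((k + 1 : ℕ) : ℝ) ≤ ((16 * (k / 16 + 1) : ℕ) : ℝ) := by exact_mod_cast h7
      push_cast at h6
      nlinarith
    have g1 := c_lo j (k / 16)
    have g2 := c_hi j (k / 16)
    have e1 := cmp_y isOpen_Dom hG (a := (k / 16 : ℕ) * r j) (b := ((k / 16 : ℕ) + 1) * r j) (c := r (j + 1))
      (d := r (j + 1) + w j) (s₁ := c (j + 1) k) (s₂ := c (j + 1) k + w (j + 1)) (t₁ := c j (k / 16))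
      (t₂ := c j (k / 16) + w j) ((H_sub j (k / 16)).trans (P_sub hk')) hc1 (by linarith) hc2 g1.le (by linarith)
      g2.le hA0 hN0 hA hE
    obtain ⟨A', hAd'⟩ : ∃ A', A' = 2 * (c (j + 1) k + w (j + 1) - c (j + 1) k) /
      (c j (k / 16) + w j - c j (k / 16)) * A + 2 * (c (j + 1) k + w (j + 1) - c (j + 1) k) *
      (((k / 16 : ℕ) + 1) * r j - (k / 16 : ℕ) * r j) * N := ⟨_, rfl⟩
    rw [← hAd'] at e1
    have f1 : c (j + 1) k + w (j + 1) - c (j + 1) k = w (j + 1) := by ring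
    have f2 : c j (k / 16) + w j - c j (k / 16) = w j := by ring
    have f3 : (((k / 16 : ℕ) : ℝ) + 1) * r j - (k / 16 : ℕ) * r j = r j := by ring
    rw [f1, f2, f3] at hAd'
    have hA0' : 0 ≤ A' := by
      rw [hAd']
      have := r_pos j
      positivity
    have e2 := cmp_x isOpen_Dom hG (a := r (j + 1 + 1)) (b := r (j + 1) + 128 * w (j + 1)) (c := c (j + 1) k)
      (d := c (j + 1) k + w (j + 1)) (s₁ := r (j + 1 + 1)) (s₂ := r (j + 1 + 1) + w (j + 1)) (t₁ := r (j + 1))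
      (t₂ := r (j + 1) + w j) ((V_sub (j + 1) k).trans (P_sub hk)) le_rfl (by linarith) (by linarith) (by linarith)
      (by linarith) (by linarith) hA0' hN0 e1 hE
    refine e2.trans (ENNReal.ofReal_le_ofReal ?_)
    have f4 : r (j + 1 + 1) + w (j + 1) - r (j + 1 + 1) = w (j + 1) := by ring
    have f5 : r (j + 1) + w j - r (j + 1) = w j := by ring
    rw [f4, f5, hAd', hAd]
    have re := r_eq (j + 1)
    have hle := w_le j
    rw [ws, rs]
    have f6 : 2 * w (j + 1) / (128 * w (j + 1)) = 1 / 64 := by field_simp; norm_num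
    rw [f6]
    have h8 : (8 : ℝ) ^ (j + 1) = 8 * 8 ^ j := by rw [pow_succ]; ring
    obtain ⟨E, hEd⟩ : ∃ E : ℝ, E = 8 ^ j := ⟨_, rfl⟩
    obtain ⟨ω, hω⟩ : ∃ ω, ω = w (j + 1) := ⟨_, rfl⟩
    obtain ⟨ρ, hρ⟩ : ∃ ρ, ρ = r (j + 1) := ⟨_, rfl⟩
    obtain ⟨ρ2, hρ2⟩ : ∃ ρ2, ρ2 = r (j + 1 + 1) := ⟨_, rfl⟩
    have hE0 : 0 < E := by rw [hEd]; positivity
    rw [h8, ← hEd, ← hω, ← hρ] at re
    rw [h8, ← hEd, ← hω, ← hρ, ← hρ2]
    rw [← hω] at w1
    rw [← hρ2] at r2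
    have t1 : 1 / 64 * (1 / 64 * (K * E * (128 * ω) ^ 2 * N) + 2 * ω * (16 * ρ) * N) +
        2 * ω * (ρ + 128 * ω - ρ2) * N = 4 * K * E * ω ^ 2 * N + (1 / 2) * ω * ρ * N + 2 * ω * (ρ + 128 * ω - ρ2) * N := by
      ring
    rw [t1]
    have t2 : 128 * ω ≤ ρ / 4 := by
      rw [re]
      have : (1 : ℝ) ≤ E := by rw [hEd]; exact one_le_pow₀ (by norm_num)
      nlinarith
    have t3 : 2 * ω * (ρ + 128 * ω - ρ2) * N ≤ 3 * ω * ρ * N := by
      refine mul_le_mul_of_nonneg_right ?_ hN0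
      nlinarith
    have t4 : ω * ρ * N = 8192 * E * ω ^ 2 * N := by rw [re]; ring
    have t5 : 0 ≤ E * ω ^ 2 * N := by positivity
    nlinarith [mul_nonneg (sub_nonneg.2 hK7) t5]

/-- The mean of `|G|^2` over the pieces. -/
theorem tree_est : ∃ K : ℝ, 0 < K ∧ ∀ (G : ℂ → ℂ) (N : ℝ), DifferentiableOn ℂ G Dom → ‖G (p 0 0)‖ ^ 2 ≤ N →
    E2 (deriv G) Dom ≤ ENNReal.ofReal N → ∀ j k, k < 16 ^ j →
    E2 G (P j k) ≤ ENNReal.ofReal (K * r j ^ 2 * N) := by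
  obtain ⟨K, hK, hS⟩ := S_est
  refine ⟨K + 10, by linarith, ?_⟩
  intro G N hG hN hE j k hk
  have hN0 : 0 ≤ N := le_trans (by positivity) hN
  have hA := hS G N hG hN hE j k hk
  obtain ⟨A, hAd⟩ : ∃ A, A = K * 8 ^ j * w j ^ 2 * N := ⟨_, rfl⟩
  rw [← hAd] at hA
  have hA0 : 0 ≤ A := by rw [hAd]; positivity
  have w0 := w_pos j
  have r1 := r_pos (j + 1)
  have rs := r_succ j
  have r0 := r_pos j
  have hle := w_le j
  have g1 := c_lo j k
  have g2 := c_hi j k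
  have e1 := cmp_x isOpen_Dom hG (a := r (j + 1)) (b := r j + 128 * w j) (c := c j k)
      (d := c j k + w j) (s₁ := r (j + 1)) (s₂ := r j + 128 * w j) (t₁ := r (j + 1))
      (t₂ := r (j + 1) + w j) ((V_sub j k).trans (P_sub hk)) le_rfl (by linarith) le_rfl le_rfl
      (by linarith) (by linarith) hA0 hN0 hA hE
  have e2 := cmp_y isOpen_Dom hG (a := k * r j) (b := (k + 1) * r j) (c := r (j + 1))
      (d := r (j + 1) + w j) (s₁ := k * r j) (s₂ := (k + 1) * r j) (t₁ := c j k)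
      (t₂ := c j k + w j) ((H_sub j k).trans (P_sub hk)) le_rfl (by nlinarith) le_rfl g1.le (by linarith)
      g2.le hA0 hN0 hA hE
  have e3 : E2 G (P j k) ≤ E2 G (V j k) + E2 G (H j k) := lintegral_union_le _ _ _
  refine e3.trans ((add_le_add e1 e2).trans ?_)
  have f5 : r (j + 1) + w j - r (j + 1) = w j := by ring
  have f6 : c j k + w j - c j k = w j := by ring
  have f7 : ((k : ℝ) + 1) * r j - k * r j = r j := by ring
  rw [f5, f6, f7]
  obtain ⟨ℓ, hℓ⟩ : ∃ ℓ, ℓ = r j + 128 * w j - r (j + 1) := ⟨_, rfl⟩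
  rw [← hℓ]
  have hℓ0 : 0 < ℓ := by rw [hℓ]; linarith
  have hℓ2 : ℓ ≤ 2 * r j := by rw [hℓ]; linarith
  rw [← ENNReal.ofReal_add (by positivity) (by positivity)]
  refine ENNReal.ofReal_le_ofReal ?_
  have h1 : 2 * ℓ / w j * A ≤ 4 * r j / w j * A := by
    refine mul_le_mul_of_nonneg_right ?_ hA0
    rw [div_le_div_iff_of_pos_right w0]
    linarith
  have h2 : r j / w j * A = K / 1024 * r j ^ 2 * N := by
    rw [hAd]
    have := r_eq j
    have h3 : (8 : ℝ) ^ j * w j = r j / 1024 := by rw [this]; ring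
    calc r j / w j * (K * 8 ^ j * w j ^ 2 * N) = r j * K * (8 ^ j * w j) * N := by field_simp
      _ = _ := by rw [h3]; ring
  have h3 : 4 * r j / w j * A = 4 * (r j / w j * A) := by ring
  have h4 : 2 * r j / w j * A = 2 * (r j / w j * A) := by ring
  rw [h3] at h1
  rw [h4]
  have h5 : 2 * ℓ * ℓ * N ≤ 8 * r j ^ 2 * N := by
    refine mul_le_mul_of_nonneg_right ?_ hN0
    nlinarith
  have h6 : 0 ≤ r j ^ 2 * N := by positivity
  rw [h2] at h1 ⊢
  nlinarith [mul_nonneg hK.le h6]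

end Pool.Agent.Q92.DT
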