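import Pool.Agent.Q92.DT.Geo

/-!
# The weights: the derivatives of the Cesàro means on the pieces of the tree
-/

set_option autoImplicit false

open Set Filter Topology Metric Finset

namespace Pool.Agent.Q92.DT

/-- the Cayley map from the right half plane to the disc -/
noncomputable def mp (h : ℂ) : ℂ := (1 - h) / (1 + h)

/-- the Cesàro mean `(1 / (n + 1)) ∑ l^i (mp h)^i` -/
noncomputable def A (n : ℕ) (l h : ℂ) : ℂ := (1 / ((n : ℂ) + 1)) * ∑ i ∈ range (n + 1), l ^ i * mp h ^ i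

/-- the derivative of the geometric sum -/
noncomputable def D (n : ℕ) (x : ℂ) : ℂ := ∑ i ∈ range (n + 1), (i : ℂ) * x ^ (i - 1)

theorem D_succ (n : ℕ) (x : ℂ) : D (n + 1) x = D n x + ((n : ℂ) + 1) * x ^ n := by
  unfold D
  rw [sum_range_succ _ (n + 1)]
  push_cast
  simp

theorem D_closed (n : ℕ) (x : ℂ) : (1 - x) ^ 2 * D n x = 1 - ((n : ℂ) + 1) * x ^ n + n * x ^ (n + 1) := by
  induction n with
  | zero => simp [D]
  | succ n ih =>
    rw [D_succ, mul_add, ih]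
    push_cast
    ring

theorem D_le {n : ℕ} {x : ℂ} (hx : ‖x‖ ≤ 1) : ‖D n x‖ ≤ (n : ℝ) * (n + 1) := by
  unfold D
  refine (norm_sum_le _ _).trans ?_
  calc ∑ i ∈ range (n + 1), ‖(i : ℂ) * x ^ (i - 1)‖ ≤ ∑ i ∈ range (n + 1), (n : ℝ) := by
        refine sum_le_sum fun i hi => ?_
        rw [norm_mul, norm_pow, Complex.norm_natCast]
        have h1 : (i : ℝ) ≤ n := by exact_mod_cast Nat.lt_succ_iff.1 (mem_range.1 hi)
        have h2 : ‖x‖ ^ (i - 1) ≤ 1 := pow_le_one₀ (norm_nonneg _) hx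
        calc (i : ℝ) * ‖x‖ ^ (i - 1) ≤ i * 1 := by gcongr
          _ ≤ n := by rw [mul_one]; exact h1
    _ = _ := by
        rw [sum_const, card_range, nsmul_eq_mul]
        push_cast
        ring

theorem D_le2 {n : ℕ} {x : ℂ} (hx : ‖x‖ ≤ 1) {y : ℝ} (hy : 0 < y) (hxy : y ≤ ‖1 - x‖) :
    ‖D n x‖ ≤ 2 / y ^ 2 + n * ‖x‖ ^ n / y := by
  have h0 : 0 < ‖1 - x‖ := lt_of_lt_of_le hy hxy
  have hne : (1 - x) ≠ 0 := norm_pos_iff.1 h0
  have h1 : D n x = (1 - x ^ n) / (1 - x) ^ 2 - n * x ^ n / (1 - x) := by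
    have := D_closed n x
    field_simp
    rw [mul_comm, this]
    ring
  have h2 : ‖1 - x ^ n‖ ≤ 2 := by
    refine (norm_sub_le _ _).trans ?_
    rw [norm_one, norm_pow]
    have : ‖x‖ ^ n ≤ 1 := pow_le_one₀ (norm_nonneg _) hx
    linarith
  rw [h1]
  refine (norm_sub_le _ _).trans ?_
  rw [norm_div, norm_div, norm_pow, norm_mul, norm_pow, Complex.norm_natCast]
  gcongr

/-- the two bounds for the derivative of the mean -/
theorem D_sq_A {n : ℕ} {x : ℂ} (hn : 1 ≤ n) (hx : ‖x‖ ≤ 1) {y : ℝ} (hy : 0 < y) (hxy : y ≤ ‖1 - x‖) :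
    (‖D n x‖ / (n + 1)) ^ 2 ≤ 18 * n ^ 2 / (1 + n ^ 2 * y ^ 2) := by
  have hn' : (1 : ℝ) ≤ n := by exact_mod_cast hn
  have hD0 := norm_nonneg (D n x)
  rcases le_or_gt (n * y) 1 with h | h
  · have h1 : ‖D n x‖ / (n + 1) ≤ n := by
      rw [div_le_iff₀ (by positivity)]
      exact D_le hx
    calc (‖D n x‖ / (n + 1)) ^ 2 ≤ (n : ℝ) ^ 2 := pow_le_pow_left₀ (by positivity) h1 2
      _ ≤ _ := by
        rw [le_div_iff₀ (by positivity)]
        have : (n * y : ℝ) ^ 2 ≤ 1 := pow_le_one₀ (by positivity) h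
        nlinarith [sq_nonneg (n : ℝ)]
  · have h1 : ‖D n x‖ / (n + 1) ≤ 3 / y := by
      rw [div_le_iff₀ (by positivity)]
      refine (D_le2 hx hy hxy).trans ?_
      have h2 : ‖x‖ ^ n ≤ 1 := pow_le_one₀ (norm_nonneg _) hx
      have h3 : 2 / y ^ 2 ≤ 2 * n / y := by
        rw [div_le_div_iff₀ (by positivity) hy]
        nlinarith
      have h4 : n * ‖x‖ ^ n / y ≤ n / y := by
        apply div_le_div_of_nonneg_right _ hy.le
        nlinarith
      have h5 : 3 / y * ((n : ℝ) + 1) = 2 * n / y + n / y + 3 / y := by ring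
      have h6 : 0 < 3 / y := by positivity
      linarith
    calc (‖D n x‖ / (n + 1)) ^ 2 ≤ (3 / y) ^ 2 := pow_le_pow_left₀ (by positivity) h1 2
      _ ≤ _ := by
        rw [div_pow, div_le_div_iff₀ (by positivity) (by positivity)]
        have : (1 : ℝ) ≤ (n * y) ^ 2 := one_le_pow₀ h.le
        nlinarith

theorem D_sq_B {n : ℕ} {x : ℂ} (hn : 1 ≤ n) (hx : ‖x‖ ≤ 1) {y : ℝ} (hy : 0 < y) (hxy : y ≤ ‖1 - x‖) :
    (‖D n x‖ / (n + 1)) ^ 2 ≤ 8 / (n ^ 2 * y ^ 4) + 2 * (‖x‖ ^ 2) ^ n / y ^ 2 := by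
  have hn' : (1 : ℝ) ≤ n := by exact_mod_cast hn
  have h1 : ‖D n x‖ / (n + 1) ≤ 2 / (n * y ^ 2) + ‖x‖ ^ n / y := by
    have hD := D_le2 (n := n) hx hy hxy
    have h2 : ‖D n x‖ / (n + 1) ≤ ‖D n x‖ / n := by gcongr; linarith
    refine h2.trans ?_
    rw [div_le_iff₀ (by positivity)]
    refine hD.trans (le_of_eq ?_)
    field_simp
  calc (‖D n x‖ / (n + 1)) ^ 2 ≤ (2 / (n * y ^ 2) + ‖x‖ ^ n / y) ^ 2 := pow_le_pow_left₀ (by positivity) h1 2
    _ ≤ 2 * (2 / (n * y ^ 2)) ^ 2 + 2 * (‖x‖ ^ n / y) ^ 2 := by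
        nlinarith [sq_nonneg (2 / (n * y ^ 2) - ‖x‖ ^ n / y)]
    _ = _ := by
        rw [← pow_mul, mul_comm 2 n, pow_mul]
        field_simp
        ring

/-- telescoping -/
theorem tel (v δ : ℝ) (hδ : 0 < δ) : δ / (1 + δ + |v|) ^ 2 ≤ (v + δ) / (1 + |v + δ|) - v / (1 + |v|) := by
  rcases le_or_gt 0 v with h | h
  · rw [abs_of_nonneg h, abs_of_nonneg (by linarith : 0 ≤ v + δ)]
    have h1 : (v + δ) / (1 + (v + δ)) - v / (1 + v) = δ / ((1 + (v + δ)) * (1 + v)) := by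
      field_simp
      ring
    rw [h1]
    apply div_le_div_of_nonneg_left hδ.le (by positivity)
    nlinarith
  · rcases le_or_gt (v + δ) 0 with h' | h'
    · rw [abs_of_neg h, abs_of_nonpos h']
      have e1 : 0 < 1 + -(v + δ) := by linarith
      have e2 : 0 < 1 + -v := by linarith
      have h1 : (v + δ) / (1 + -(v + δ)) - v / (1 + -v) = δ / ((1 + -(v + δ)) * (1 + -v)) := by
        rw [div_sub_div _ _ e1.ne' e2.ne']
        congr 1
        ring
      rw [h1]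
      apply div_le_div_of_nonneg_left hδ.le (by positivity)
      nlinarith
    · rw [abs_of_neg h, abs_of_pos h']
      have e1 : 0 < 1 + (v + δ) := by linarith
      have e2 : 0 < 1 + -v := by linarith
      have e3 : 0 < 1 + δ + -v := by linarith
      have h1 : (v + δ) / (1 + δ + -v) ≤ (v + δ) / (1 + (v + δ)) := by
        apply div_le_div_of_nonneg_left h'.le e1
        linarith
      have h2 : -v / (1 + δ + -v) ≤ -v / (1 + -v) := by
        apply div_le_div_of_nonneg_left (by linarith) e2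
        linarith
      have h3 : δ / (1 + δ + -v) ^ 2 ≤ δ / (1 + δ + -v) := by
        apply div_le_div_of_nonneg_left hδ.le e3
        nlinarith
      have h4 : δ / (1 + δ + -v) = (v + δ) / (1 + δ + -v) + -v / (1 + δ + -v) := by
        rw [← add_div]
        congr 1
        ring
      have h5 : v / (1 + -v) = -(-v / (1 + -v)) := by ring
      rw [h5]
      linarith

/-- the sum over the pieces of one level -/
theorem sum_k (κ δ : ℝ) (hδ : 0 < δ) (K : ℕ) :
    ∑ k ∈ range K, 1 / (1 + δ ^ 2 * (1 + |(k : ℝ) - κ|) ^ 2) ≤ 4 / δ := by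
  obtain ⟨f, hf⟩ : ∃ f : ℕ → ℝ, f = fun k : ℕ => δ * ((k : ℝ) - κ) / (1 + |δ * ((k : ℝ) - κ)|) := ⟨_, rfl⟩
  have hstep : ∀ k : ℕ, 1 / (1 + δ ^ 2 * (1 + |(k : ℝ) - κ|) ^ 2) ≤ 2 / δ * (f (k + 1) - f k) := by
    intro k
    have h1 := tel (δ * ((k : ℝ) - κ)) δ hδ
    have h2 : δ * ((k : ℝ) - κ) + δ = δ * (((k + 1 : ℕ) : ℝ) - κ) := by push_cast; ring
    rw [h2] at h1
    have h3 : f (k + 1) - f k = δ * (((k + 1 : ℕ) : ℝ) - κ) / (1 + |δ * (((k + 1 : ℕ) : ℝ) - κ)|) -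
        δ * ((k : ℝ) - κ) / (1 + |δ * ((k : ℝ) - κ)|) := by rw [hf]
    rw [← h3] at h1
    have h4 : |δ * ((k : ℝ) - κ)| = δ * |(k : ℝ) - κ| := by rw [abs_mul, abs_of_pos hδ]
    rw [h4] at h1
    obtain ⟨u, hu⟩ : ∃ u, u = |(k : ℝ) - κ| := ⟨_, rfl⟩
    have hu0 : 0 ≤ u := hu ▸ abs_nonneg _
    rw [← hu] at h1 ⊢
    have h5 : 1 / (1 + δ ^ 2 * (1 + u) ^ 2) ≤ 2 / δ * (δ / (1 + δ + δ * u) ^ 2) := by
      have h6 : 2 / δ * (δ / (1 + δ + δ * u) ^ 2) = 2 / (1 + δ + δ * u) ^ 2 := by field_simp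
      rw [h6, div_le_div_iff₀ (by positivity) (by positivity)]
      nlinarith [sq_nonneg (1 - δ * (1 + u))]
    refine h5.trans ?_
    exact mul_le_mul_of_nonneg_left h1 (by positivity)
  refine (sum_le_sum fun k _ => hstep k).trans ?_
  rw [← mul_sum, sum_range_sub]
  have hb : ∀ v : ℝ, |v / (1 + |v|)| ≤ 1 := by
    intro v
    rw [abs_div, abs_of_pos (by positivity : 0 < 1 + |v|), div_le_one (by positivity)]
    linarith [abs_nonneg v]
  have h1 : f K ≤ 1 := by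
    rw [hf]
    exact (abs_le.1 (hb _)).2
  have h2 : -1 ≤ f 0 := by
    rw [hf]
    exact (abs_le.1 (hb _)).1
  calc 2 / δ * (f K - f 0) ≤ 2 / δ * 2 := by
        apply mul_le_mul_of_nonneg_left _ (by positivity)
        linarith
    _ = 4 / δ := by ring

/-- the sum over the levels -/
theorem sum_j (n : ℕ) (g : ℕ → ℝ) (h1 : ∀ j, n * r j ≤ 1 → g j ≤ n * r j)
    (h2 : ∀ j, 1 < n * r j → g j ≤ 1 / (n * r j) ^ 2) (J : ℕ) : ∑ j ∈ range J, g j ≤ 3 := by
  obtain ⟨f, hf⟩ : ∃ f : ℕ → ℝ, f = fun j : ℕ => 3 * (n * r j) / (1 + n * r j) := ⟨_, rfl⟩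
  have hr : ∀ j, 0 ≤ n * r j := fun j => mul_nonneg (Nat.cast_nonneg _) (r_pos j).le
  have hstep : ∀ j : ℕ, g j ≤ f j - f (j + 1) := by
    intro j
    obtain ⟨u, hu⟩ : ∃ u, u = n * r j := ⟨_, rfl⟩
    have hu0 : 0 ≤ u := hu ▸ hr j
    have hu1 : n * r (j + 1) = u / 16 := by rw [hu, r_succ j]; ring
    have h3 : f j - f (j + 1) = 45 * u / ((1 + u) * (16 + u)) := by
      rw [hf]
      simp only
      rw [hu1, ← hu]
      field_simp
      ring
    rw [h3]
    rcases le_or_gt u 1 with h | h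
    · refine (h1 j (hu ▸ h)).trans ?_
      rw [← hu, le_div_iff₀ (by positivity)]
      nlinarith [mul_nonneg hu0 hu0]
    · refine (h2 j (hu ▸ h)).trans ?_
      rw [← hu, div_le_div_iff₀ (by positivity) (by positivity)]
      have h4 : (1 + u) * (16 + u) ≤ 34 * u ^ 2 := by nlinarith
      have h5 : u ^ 2 ≤ u * u ^ 2 := by nlinarith [sq_nonneg u]
      nlinarith
  refine (sum_le_sum fun k _ => hstep k).trans ?_
  rw [sum_range_sub']
  have h3 : f 0 ≤ 3 := by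
    rw [hf]
    simp only
    rw [div_le_iff₀ (by have := hr 0; linarith)]
    have := hr 0
    linarith
  have h4 : 0 ≤ f J := by
    rw [hf]
    have := hr J
    simp only
    positivity
  linarith

/-- the distance to the pole -/
theorem dist_pole (l : ℂ) (hl : ‖l‖ = 1) : ∃ β : ℝ, ∀ h ∈ Dom, (h.re + |h.im - β|) / 20 ≤ ‖1 - l * mp h‖ := by
  obtain ⟨μ, hμ⟩ : ∃ μ : ℂ, μ ^ 2 = l := IsAlgClosed.exists_pow_nat_eq l (by norm_num)
  have hμ1 : ‖μ‖ = 1 := by
    have : ‖μ‖ ^ 2 = 1 := by rw [← norm_pow, hμ, hl]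
    exact (pow_eq_one_iff_of_nonneg (norm_nonneg _) (by norm_num)).1 this
  obtain ⟨a, ha⟩ : ∃ a, a = μ.re := ⟨_, rfl⟩
  obtain ⟨b, hb⟩ : ∃ b, b = μ.im := ⟨_, rfl⟩
  have hab : a ^ 2 + b ^ 2 = 1 := by
    have h1 : ‖μ‖ ^ 2 = 1 := by rw [hμ1]; norm_num
    rw [Complex.sq_norm, Complex.normSq_apply] at h1
    rw [ha, hb]
    nlinarith
  have hconj : μ * (starRingEnd ℂ) μ = 1 := by
    rw [Complex.mul_conj, Complex.normSq_eq_norm_sq, hμ1]
    norm_num
  -- the formula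
  have hform : ∀ h ∈ Dom, ‖1 - l * mp h‖ = 2 * ‖(a : ℂ) * h - b * Complex.I‖ / ‖1 + h‖ := by
    intro h hh
    have h1 := Dom_coord hh
    have h2 : 1 + h ≠ 0 := by
      intro h3
      have := congrArg Complex.re h3
      simp at this
      linarith [h1.1]
    have e : 1 - l * mp h = μ * (2 * ((a : ℂ) * h - b * Complex.I)) / (1 + h) := by
      have e1 : (starRingEnd ℂ) μ + μ = 2 * (a : ℂ) := by
        apply Complex.ext <;> simp [ha]; ring
      have e2 : (starRingEnd ℂ) μ - μ = -(2 * (b : ℂ) * Complex.I) := by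
        apply Complex.ext <;> simp [hb]; ring
      have e3 : 2 * ((a : ℂ) * h - b * Complex.I) = ((starRingEnd ℂ) μ - μ) + h * ((starRingEnd ℂ) μ + μ) := by
        rw [e1, e2]; ring
      rw [e3]
      unfold mp
      rw [eq_div_iff h2]
      rw [← hμ]
      have : (1 - μ ^ 2 * ((1 - h) / (1 + h))) * (1 + h) = (1 + h) - μ ^ 2 * (1 - h) := by
        field_simp
      rw [this]
      linear_combination (-(1 + h)) * hconj
    rw [e, norm_div, norm_mul, hμ1, one_mul, norm_mul]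
    simp
  have hnorm : ∀ h ∈ Dom, ‖1 + h‖ ≤ 4 ∧ 0 < ‖1 + h‖ := by
    intro h hh
    obtain ⟨h1, h2, h3, h4⟩ := Dom_coord hh
    constructor
    · refine (norm_add_le _ _).trans ?_
      have := Complex.norm_le_abs_re_add_abs_im h
      rw [abs_of_pos h1, abs_of_pos h3] at this
      rw [norm_one]
      linarith
    · rw [norm_pos_iff]
      intro h5
      have := congrArg Complex.re h5
      simp at this
      linarith
  have hlow : ∀ h ∈ Dom, ‖(a : ℂ) * h - b * Complex.I‖ / 2 ≤ ‖1 - l * mp h‖ := by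
    intro h hh
    rw [hform h hh]
    obtain ⟨h1, h2⟩ := hnorm h hh
    rw [le_div_iff₀ h2]
    nlinarith [norm_nonneg ((a : ℂ) * h - b * Complex.I)]
  have hre : ∀ h : ℂ, ((a : ℂ) * h - b * Complex.I).re = a * h.re := by intro h; simp
  have him : ∀ h : ℂ, ((a : ℂ) * h - b * Complex.I).im = a * h.im - b := by intro h; simp
  rcases le_or_gt (1 / 10) (a ^ 2) with hA | hA
  · have ha0 : a ≠ 0 := by
      intro h
      rw [h] at hA
      norm_num at hA
    refine ⟨b / a, fun h hh => ?_⟩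
    refine le_trans ?_ (hlow h hh)
    obtain ⟨h1, h2, h3, h4⟩ := Dom_coord hh
    have k1 := Complex.abs_re_le_norm ((a : ℂ) * h - b * Complex.I)
    have k2 := Complex.abs_im_le_norm ((a : ℂ) * h - b * Complex.I)
    rw [hre, abs_mul, abs_of_pos h1] at k1
    rw [him] at k2
    have k3 : a * h.im - b = a * (h.im - b / a) := by field_simp
    rw [k3, abs_mul] at k2
    have k4 : 1 / 4 ≤ |a| := by
      by_contra hc
      rw [not_le] at hc
      have : a ^ 2 < (1 / 4) ^ 2 := by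
        rw [← sq_abs]
        exact pow_lt_pow_left₀ hc (abs_nonneg _) (by norm_num)
      linarith
    have k5 := abs_nonneg (h.im - b / a)
    nlinarith [mul_nonneg (sub_nonneg.2 k4) h1.le, mul_nonneg (sub_nonneg.2 k4) k5]
  · refine ⟨0, fun h hh => ?_⟩
    refine le_trans ?_ (hlow h hh)
    obtain ⟨h1, h2, h3, h4⟩ := Dom_coord hh
    have k2 := Complex.abs_im_le_norm ((a : ℂ) * h - b * Complex.I)
    rw [him] at k2
    rw [sub_zero, abs_of_pos h3]
    have k4 : |a| ≤ 1 / 3 := by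
      by_contra hc
      rw [not_le] at hc
      have : (1 / 3) ^ 2 < a ^ 2 := by
        rw [← sq_abs a]
        exact pow_lt_pow_left₀ hc (by norm_num) (by norm_num)
      linarith
    have k5 : 3 / 4 ≤ |b| := by
      by_contra hc
      rw [not_le] at hc
      have : b ^ 2 < (3 / 4) ^ 2 := by
        rw [← sq_abs b]
        exact pow_lt_pow_left₀ hc (abs_nonneg _) (by norm_num)
      linarith
    have k6 : |b| - |a * h.im| ≤ |a * h.im - b| := by
      have := abs_sub_abs_le_abs_sub b (a * h.im)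
      rwa [abs_sub_comm b] at this
    rw [abs_mul, abs_of_pos h3] at k6
    have k7 : |a| * h.im ≤ 1 / 3 := by nlinarith [abs_nonneg a]
    linarith

theorem mp_sq {h : ℂ} (hh : h ∈ Dom) : ‖mp h‖ ^ 2 ≤ 1 - h.re / 4 := by
  obtain ⟨h1, h2, h3, h4⟩ := Dom_coord hh
  have e1 : ‖(1 : ℂ) + h‖ ^ 2 = (1 + h.re) ^ 2 + h.im ^ 2 := by
    rw [Complex.sq_norm, Complex.normSq_apply]
    simp
    ring
  have e2 : ‖(1 : ℂ) - h‖ ^ 2 = (1 - h.re) ^ 2 + h.im ^ 2 := by
    rw [Complex.sq_norm, Complex.normSq_apply]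
    simp
    ring
  unfold mp
  rw [norm_div, div_pow, e1, e2, div_le_iff₀ (by positivity)]
  nlinarith [mul_pos h1 h3, mul_pos h1 h1, mul_pos (mul_pos h1 h1) h1, mul_pos (mul_pos h1 h3) h3,
    mul_nonneg h1.le (sub_nonneg.2 h4.le), mul_nonneg h1.le (sub_nonneg.2 h2.le)]

theorem mp_le {h : ℂ} (hh : h ∈ Dom) : ‖mp h‖ ≤ 1 := by
  have h1 := mp_sq hh
  have h2 := (Dom_coord hh).1
  nlinarith [norm_nonneg (mp h)]

theorem one_add_ne {h : ℂ} (hh : h ∈ Dom) : 1 + h ≠ 0 := by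
  intro h3
  have := congrArg Complex.re h3
  simp at this
  linarith [(Dom_coord hh).1]

theorem hasDerivAt_mp {h : ℂ} (hh : h ∈ Dom) : HasDerivAt mp (-2 / (1 + h) ^ 2) h := by
  have h1 : HasDerivAt (fun h : ℂ => 1 - h) (-1) h := by simpa using (hasDerivAt_id h).const_sub 1
  have h2 : HasDerivAt (fun h : ℂ => 1 + h) 1 h := by simpa using (hasDerivAt_id h).const_add 1
  have h3 := h1.div h2 (one_add_ne hh)
  have e : (-1 * (1 + h) - (1 - h) * 1) / (1 + h) ^ 2 = -2 / (1 + h) ^ 2 := by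
    congr 1
    ring
  rw [e] at h3
  exact h3

theorem norm_mp' {h : ℂ} (hh : h ∈ Dom) : ‖-2 / (1 + h) ^ 2‖ ≤ 2 := by
  have h1 : 1 ≤ ‖1 + h‖ := by
    have := Complex.abs_re_le_norm (1 + h)
    have h2 := (Dom_coord hh).1
    simp only [Complex.add_re, Complex.one_re] at this
    rw [abs_of_pos (by linarith)] at this
    linarith
  rw [norm_div, norm_pow, norm_neg]
  have : ‖(2 : ℂ)‖ = 2 := by simp
  rw [this]
  exact div_le_self (by norm_num) (one_le_pow₀ h1)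

theorem hasDerivAt_A {n : ℕ} {l h : ℂ} (hh : h ∈ Dom) :
    HasDerivAt (A n l) (l / ((n : ℂ) + 1) * D n (l * mp h) * (-2 / (1 + h) ^ 2)) h := by
  have h1 : ∀ i ∈ range (n + 1), HasDerivAt (fun h : ℂ => l ^ i * mp h ^ i)
      (l ^ i * ((i : ℂ) * mp h ^ (i - 1) * (-2 / (1 + h) ^ 2))) h := fun i _ =>
    ((hasDerivAt_mp hh).fun_pow i).const_mul _
  have h2 := (HasDerivAt.fun_sum h1).const_mul (1 / ((n : ℂ) + 1))
  refine h2.congr_deriv ?_
  unfold D
  have h3 : ∀ i ∈ range (n + 1), l ^ i * ((i : ℂ) * mp h ^ (i - 1) * (-2 / (1 + h) ^ 2)) =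
      l * ((i : ℂ) * (l * mp h) ^ (i - 1)) * (-2 / (1 + h) ^ 2) := by
    intro i _
    rcases Nat.eq_zero_or_pos i with h0 | h0
    · subst h0
      simp
    · obtain ⟨i, rfl⟩ : ∃ i', i = i' + 1 := ⟨i - 1, by omega⟩
      simp only [Nat.add_sub_cancel]
      rw [mul_pow, pow_succ]
      ring
  rw [sum_congr rfl h3, ← sum_mul, ← mul_sum]
  ring

theorem norm_deriv_A {n : ℕ} {l h : ℂ} (hl : ‖l‖ = 1) (hh : h ∈ Dom) :
    ‖deriv (A n l) h‖ ^ 2 ≤ 4 * (‖D n (l * mp h)‖ / (n + 1)) ^ 2 := by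
  rw [(hasDerivAt_A hh).deriv, norm_mul, norm_mul, norm_div, hl]
  have h1 : ‖(n : ℂ) + 1‖ = n + 1 := by
    have : (n : ℂ) + 1 = ((n + 1 : ℕ) : ℂ) := by push_cast; ring
    rw [this, Complex.norm_natCast]
    push_cast
    ring
  rw [h1]
  have h2 := norm_mp' hh
  have h3 : 1 / ((n : ℝ) + 1) * ‖D n (l * mp h)‖ = ‖D n (l * mp h)‖ / (n + 1) := by ring
  rw [h3, mul_pow]
  have h4 : ‖-2 / (1 + h) ^ 2‖ ^ 2 ≤ 2 ^ 2 := pow_le_pow_left₀ (norm_nonneg _) h2 2
  nlinarith [sq_nonneg (‖D n (l * mp h)‖ / (n + 1))]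

theorem norm_A_le {n : ℕ} {l h : ℂ} (hl : ‖l‖ = 1) (hh : h ∈ Dom) : ‖A n l h‖ ≤ 1 := by
  unfold A
  have h1 : ‖1 / ((n : ℂ) + 1)‖ = 1 / (n + 1) := by
    have : (n : ℂ) + 1 = ((n + 1 : ℕ) : ℂ) := by push_cast; ring
    rw [norm_div, norm_one, this, Complex.norm_natCast]
    push_cast
    ring
  rw [norm_mul, h1]
  have h2 : ‖∑ i ∈ range (n + 1), l ^ i * mp h ^ i‖ ≤ n + 1 := by
    refine (norm_sum_le _ _).trans ?_
    calc ∑ i ∈ range (n + 1), ‖l ^ i * mp h ^ i‖ ≤ ∑ i ∈ range (n + 1), (1 : ℝ) := by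
          refine sum_le_sum fun i _ => ?_
          rw [norm_mul, norm_pow, norm_pow, hl, one_pow, one_mul]
          exact pow_le_one₀ (norm_nonneg _) (mp_le hh)
      _ = _ := by simp
  calc 1 / ((n : ℝ) + 1) * ‖∑ i ∈ range (n + 1), l ^ i * mp h ^ i‖ ≤ 1 / ((n : ℝ) + 1) * (n + 1) := by gcongr
    _ = 1 := by field_simp

/-- The weights. -/
theorem wt : ∃ C : ℝ, 0 < C ∧ ∀ (n : ℕ) (l : ℂ), ‖l‖ = 1 → ∃ b : ℕ → ℕ → ℝ, (∀ j k, 0 ≤ b j k) ∧
    (∀ j k, k < 16 ^ j → ∀ z ∈ P j k, ‖deriv (A n l) z‖ ^ 2 ≤ b j k) ∧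
    ∀ J, ∑ j ∈ range J, ∑ k ∈ range (16 ^ j), b j k * r j ^ 2 ≤ C := by
  obtain ⟨c0, hc0⟩ : ∃ c0 : ℝ, c0 = 1 / 640 := ⟨_, rfl⟩
  have hc0p : 0 < c0 := by rw [hc0]; norm_num
  obtain ⟨C2, hC2⟩ : ∃ C2 : ℝ, C2 = 4 * (8 / c0 ^ 4 + 16384 / c0 ^ 2) := ⟨_, rfl⟩
  have hC2p : 0 < C2 := by rw [hC2]; positivity
  obtain ⟨C3, hC3⟩ : ∃ C3 : ℝ, C3 = 288 / c0 + 8 * C2 := ⟨_, rfl⟩
  have hC3p : 0 < C3 := by rw [hC3]; positivity
  refine ⟨C3 * 3, by positivity, ?_⟩
  intro n l hl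
  rcases Nat.eq_zero_or_pos n with hn0 | hn
  · subst hn0
    refine ⟨fun _ _ => 0, fun _ _ => le_rfl, fun j k hk z hz => ?_, fun J => ?_⟩
    · have h1 := norm_deriv_A (n := 0) hl (P_sub hk hz)
      have h2 : D 0 (l * mp z) = 0 := by simp [D]
      rw [h2] at h1
      simpa using h1
    · simp only [zero_mul, sum_const_zero]
      positivity
  obtain ⟨β, hβ⟩ := dist_pole l hl
  have hn' : (1 : ℝ) ≤ n := by exact_mod_cast hn
  obtain ⟨t, ht⟩ : ∃ t : ℕ → ℕ → ℝ, t = fun j k : ℕ => 1 + |(k : ℝ) - β / r j| := ⟨_, rfl⟩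
  have ht1 : ∀ j k, 1 ≤ t j k := by
    intro j k
    rw [ht]
    simp only
    linarith [abs_nonneg ((k : ℝ) - β / r j)]
  have hy : ∀ j k, k < 16 ^ j → ∀ z ∈ P j k, c0 * r j * t j k ≤ ‖1 - l * mp z‖ := by
    intro j k hk z hz
    refine le_trans ?_ (hβ z (P_sub hk hz))
    obtain ⟨h1, h2, h3, h4⟩ := P_coord hz
    have hr := r_pos j
    have hrs := r_succ j
    have h5 : r j * (|(k : ℝ) - β / r j| - 1) ≤ |z.im - β| := by
      have e1 : r j * |(k : ℝ) - β / r j| = |k * r j - β| := by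
        rw [← abs_of_pos hr, ← abs_mul, abs_of_pos hr]
        congr 1
        field_simp
      have e2 : |k * r j - β| ≤ |k * r j - z.im| + |z.im - β| := abs_sub_le _ _ _
      have e3 : |k * r j - z.im| ≤ r j := by
        rw [abs_le]
        constructor <;> linarith
      rw [mul_sub, e1]
      linarith
    rw [hc0, ht]
    simp only
    obtain ⟨u, hu⟩ : ∃ u, u = |(k : ℝ) - β / r j| := ⟨_, rfl⟩
    have hu0 : 0 ≤ u := hu ▸ abs_nonneg _
    rw [← hu] at h5 ⊢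
    have h6 := abs_nonneg (z.im - β)
    rcases le_or_gt u 1 with h | h
    · nlinarith
    · nlinarith
  have hx : ∀ j k, k < 16 ^ j → ∀ z ∈ P j k, ‖l * mp z‖ ≤ 1 := by
    intro j k hk z hz
    rw [norm_mul, hl, one_mul]
    exact mp_le (P_sub hk hz)
  obtain ⟨b, hb⟩ : ∃ b : ℕ → ℕ → ℝ, b = fun j k => if n * r j ≤ 1 then
      72 * n ^ 2 * (1 / (1 + (c0 * n * r j) ^ 2 * t j k ^ 2)) else
      C2 / (n ^ 2 * r j ^ 4) * (2 * (1 / (1 + 1 ^ 2 * t j k ^ 2))) := ⟨_, rfl⟩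
  refine ⟨b, ?_, ?_, ?_⟩
  · intro j k
    rw [hb]
    simp only
    split_ifs <;> positivity
  · intro j k hk z hz
    have hr := r_pos j
    have h1 := norm_deriv_A (n := n) hl (P_sub hk hz)
    have htp : 0 < t j k := by linarith [ht1 j k]
    have hyy := hy j k hk z hz
    have hy0 : 0 < c0 * r j * t j k := by positivity
    rw [hb]
    simp only
    split_ifs with hcase
    · have h2 := D_sq_A hn (hx j k hk z hz) hy0 hyy
      refine h1.trans ?_
      have e : 72 * (n : ℝ) ^ 2 * (1 / (1 + (c0 * n * r j) ^ 2 * t j k ^ 2)) =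
          4 * (18 * n ^ 2 / (1 + n ^ 2 * (c0 * r j * t j k) ^ 2)) := by
        have : (c0 * n * r j) ^ 2 * t j k ^ 2 = (n : ℝ) ^ 2 * (c0 * r j * t j k) ^ 2 := by ring
        rw [this]
        ring
      rw [e]
      linarith
    · rw [not_le] at hcase
      have h2 := D_sq_B hn (hx j k hk z hz) hy0 hyy
      -- decay
      have h3 : (‖l * mp z‖ ^ 2) ^ n ≤ 8192 / (n * r j) ^ 2 := by
        rw [norm_mul, hl, one_mul]
        have e1 := mp_sq (P_sub hk hz)
        obtain ⟨e2, -, -, -⟩ := P_coord hz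
        have e3 := r_succ j
        have e4 : ‖mp z‖ ^ 2 ≤ Real.exp (-(r j / 64)) := by
          have := Real.add_one_le_exp (-(r j / 64))
          linarith
        have e5 : (‖mp z‖ ^ 2) ^ n ≤ Real.exp (-(n * r j / 64)) := by
          refine (pow_le_pow_left₀ (by positivity) e4 n).trans (le_of_eq ?_)
          rw [← Real.exp_nat_mul]
          congr 1
          ring
        refine e5.trans ?_
        have e6 : 0 < n * r j / 64 := by positivity
        have e7 := Real.quadratic_le_exp_of_nonneg e6.le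
        have e8 : (n * r j / 64) ^ 2 / 2 ≤ Real.exp (n * r j / 64) := by linarith
        rw [Real.exp_neg, inv_le_comm₀ (Real.exp_pos _) (by positivity)]
        refine le_trans (le_of_eq ?_) e8
        rw [inv_div]
        ring
      refine h1.trans ?_
      have h4 : 8 / ((n : ℝ) ^ 2 * (c0 * r j * t j k) ^ 4) ≤ 8 / c0 ^ 4 * (1 / (n ^ 2 * r j ^ 4)) * (1 / t j k ^ 2) := by
        have : 8 / c0 ^ 4 * (1 / ((n : ℝ) ^ 2 * r j ^ 4)) * (1 / t j k ^ 2) =
            8 / ((n : ℝ) ^ 2 * (c0 ^ 4 * r j ^ 4 * t j k ^ 2)) := by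
          field_simp
        rw [this]
        apply div_le_div_of_nonneg_left (by norm_num) (by positivity)
        apply mul_le_mul_of_nonneg_left _ (by positivity)
        rw [mul_pow, mul_pow]
        apply mul_le_mul_of_nonneg_left _ (by positivity)
        exact pow_le_pow_right₀ (ht1 j k) (by norm_num)
      have h5 : 2 * (‖l * mp z‖ ^ 2) ^ n / (c0 * r j * t j k) ^ 2 ≤
          16384 / c0 ^ 2 * (1 / (n ^ 2 * r j ^ 4)) * (1 / t j k ^ 2) := by
        calc 2 * (‖l * mp z‖ ^ 2) ^ n / (c0 * r j * t j k) ^ 2 ≤ 2 * (8192 / (n * r j) ^ 2) / (c0 * r j * t j k) ^ 2 := by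
              gcongr
          _ = _ := by field_simp; norm_num
      have h6 : 1 / t j k ^ 2 ≤ 2 * (1 / (1 + 1 ^ 2 * t j k ^ 2)) := by
        rw [← mul_div_assoc, div_le_div_iff₀ (by positivity) (by positivity)]
        have := ht1 j k
        nlinarith
      have h7 : 4 * (8 / c0 ^ 4 * (1 / ((n : ℝ) ^ 2 * r j ^ 4)) * (1 / t j k ^ 2) +
          16384 / c0 ^ 2 * (1 / (n ^ 2 * r j ^ 4)) * (1 / t j k ^ 2)) = C2 / (n ^ 2 * r j ^ 4) * (1 / t j k ^ 2) := by
        rw [hC2]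
        ring
      have h8 : C2 / ((n : ℝ) ^ 2 * r j ^ 4) * (1 / t j k ^ 2) ≤ C2 / (n ^ 2 * r j ^ 4) * (2 * (1 / (1 + 1 ^ 2 * t j k ^ 2))) := by
        apply mul_le_mul_of_nonneg_left h6 (by positivity)
      linarith
  · intro J
    have hlev : ∀ j, ∑ k ∈ range (16 ^ j), b j k * r j ^ 2 = C3 * ((∑ k ∈ range (16 ^ j), b j k * r j ^ 2) / C3) := by
      intro j
      rw [mul_div_assoc', mul_div_cancel_left₀ _ hC3p.ne']
    rw [sum_congr rfl fun j _ => hlev j, ← mul_sum]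
    refine mul_le_mul_of_nonneg_left ?_ hC3p.le
    refine sum_j n _ ?_ ?_ J
    · intro j hj
      have hr := r_pos j
      have hn0 : (0 : ℝ) < n := by linarith
      rw [div_le_iff₀ hC3p]
      have e1 : ∀ k ∈ range (16 ^ j), b j k * r j ^ 2 =
          72 * n ^ 2 * r j ^ 2 * (1 / (1 + (c0 * n * r j) ^ 2 * (1 + |(k : ℝ) - β / r j|) ^ 2)) := by
        intro k _
        rw [hb, ht]
        simp only
        rw [if_pos hj]
        ring
      rw [sum_congr rfl e1, ← mul_sum]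
      have e2 := sum_k (β / r j) (c0 * n * r j) (by positivity) (16 ^ j)
      calc 72 * (n : ℝ) ^ 2 * r j ^ 2 * ∑ k ∈ range (16 ^ j), 1 / (1 + (c0 * n * r j) ^ 2 * (1 + |(k : ℝ) - β / r j|) ^ 2)
          ≤ 72 * (n : ℝ) ^ 2 * r j ^ 2 * (4 / (c0 * n * r j)) := by
            apply mul_le_mul_of_nonneg_left e2 (by positivity)
        _ = n * r j * (288 / c0) := by field_simp; norm_num
        _ ≤ n * r j * C3 := by
            apply mul_le_mul_of_nonneg_left _ (by positivity)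
            rw [hC3]
            linarith
    · intro j hj
      have hr := r_pos j
      have hn0 : (0 : ℝ) < n := by linarith
      rw [div_le_iff₀ hC3p]
      have e1 : ∀ k ∈ range (16 ^ j), b j k * r j ^ 2 =
          C2 / (n ^ 2 * r j ^ 4) * 2 * r j ^ 2 * (1 / (1 + 1 ^ 2 * (1 + |(k : ℝ) - β / r j|) ^ 2)) := by
        intro k _
        rw [hb, ht]
        simp only
        rw [if_neg (not_le.2 hj)]
        ring
      rw [sum_congr rfl e1, ← mul_sum]
      have e2 := sum_k (β / r j) 1 (by norm_num) (16 ^ j)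
      calc C2 / ((n : ℝ) ^ 2 * r j ^ 4) * 2 * r j ^ 2 * ∑ k ∈ range (16 ^ j), 1 / (1 + 1 ^ 2 * (1 + |(k : ℝ) - β / r j|) ^ 2)
          ≤ C2 / ((n : ℝ) ^ 2 * r j ^ 4) * 2 * r j ^ 2 * (4 / 1) := by
            apply mul_le_mul_of_nonneg_left e2 (by positivity)
        _ = 1 / (n * r j) ^ 2 * (8 * C2) := by field_simp; norm_num
        _ ≤ 1 / (n * r j) ^ 2 * C3 := by
            apply mul_le_mul_of_nonneg_left _ (by positivity)
            rw [hC3]
            have : 0 < 288 / c0 := by positivity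
            linarith

end Pool.Agent.Q92.DT
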