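import Pool.Agent.Q92.DT.Map
import Pool.Agent.Q92.DT.Chain
import Pool.Agent.Q92.DT.Wt

/-!
# Multiplication operators of the Dirichlet space
-/

set_option autoImplicit false

open MeasureTheory Set Filter Topology Metric
open scoped ENNReal

namespace Pool.Agent.Q92.DT

/-- The square of the norm of the Dirichlet space: `|f(0)|^2 + (1/π) ∫_𝔻 |f'|^2 dA`. -/
noncomputable def normSq (f : ℂ → ℂ) : ℝ≥0∞ :=
  ‖f 0‖ₑ ^ 2 + ENNReal.ofReal (1 / Real.pi) * ∫⁻ z in ball (0 : ℂ) 1, ‖deriv f z‖ₑ ^ 2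

/-- The tree estimate with the constant `K`. -/
def TreeConst (K : ℝ) : Prop := 0 < K ∧ ∀ (G : ℂ → ℂ) (N : ℝ), DifferentiableOn ℂ G Dom → ‖G (p 0 0)‖ ^ 2 ≤ N →
    E2 (deriv G) Dom ≤ ENNReal.ofReal N → ∀ j k, k < 16 ^ j → E2 G (P j k) ≤ ENNReal.ofReal (K * r j ^ 2 * N)

theorem enorm_add_sq_le (x y : ℂ) : ‖x + y‖ₑ ^ 2 ≤ 2 * ‖x‖ₑ ^ 2 + 2 * ‖y‖ₑ ^ 2 := by
  have := enorm_sq_le (x + y) x
  rwa [add_sub_cancel_left] at this

theorem enorm_sq_eq (x : ℂ) : ‖x‖ₑ ^ 2 = ENNReal.ofReal (‖x‖ ^ 2) := by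
  rw [← ofReal_norm, ENNReal.ofReal_pow (norm_nonneg _)]

/-- the sum over the pieces -/
theorem sum_pieces {K : ℝ} (hK : TreeConst K) {B' G : ℂ → ℂ} {N C : ℝ} (hG : DifferentiableOn ℂ G Dom)
    (h0 : ‖G (p 0 0)‖ ^ 2 ≤ N) (hE : E2 (deriv G) Dom ≤ ENNReal.ofReal N) {b : ℕ → ℕ → ℝ} (hb0 : ∀ j k, 0 ≤ b j k)
    (hb : ∀ j k, k < 16 ^ j → ∀ z ∈ P j k, ‖B' z‖ ^ 2 ≤ b j k)
    (hC : ∀ J, ∑ j ∈ Finset.range J, ∑ k ∈ Finset.range (16 ^ j), b j k * r j ^ 2 ≤ C) :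
    ∫⁻ z in Dom, ‖B' z‖ₑ ^ 2 * ‖G z‖ₑ ^ 2 ≤ ENNReal.ofReal (K * C * N) := by
  have hN0 : 0 ≤ N := le_trans (by positivity) h0
  have hK0 := hK.1
  have hpiece : ∀ j k, k < 16 ^ j → ∫⁻ z in P j k, ‖B' z‖ₑ ^ 2 * ‖G z‖ₑ ^ 2 ≤
      ENNReal.ofReal (K * N * (b j k * r j ^ 2)) := by
    intro j k hk
    calc ∫⁻ z in P j k, ‖B' z‖ₑ ^ 2 * ‖G z‖ₑ ^ 2 ≤ ∫⁻ z in P j k, ENNReal.ofReal (b j k) * ‖G z‖ₑ ^ 2 := by
          refine setLIntegral_mono' (isOpen_P j k).measurableSet fun z hz => ?_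
          gcongr
          rw [enorm_sq_eq]
          exact ENNReal.ofReal_le_ofReal (hb j k hk z hz)
      _ = ENNReal.ofReal (b j k) * E2 G (P j k) := by
          rw [lintegral_const_mul' _ _ ENNReal.ofReal_ne_top]
          rfl
      _ ≤ ENNReal.ofReal (b j k) * ENNReal.ofReal (K * r j ^ 2 * N) := by
          gcongr
          exact hK.2 G N hG h0 hE j k hk
      _ = _ := by
          rw [← ENNReal.ofReal_mul (hb0 j k)]
          congr 1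
          ring
  have hsub : Dom ⊆ ⋃ j : ℕ, ⋃ k : Finset.range (16 ^ j), P j k := by
    rintro z ⟨j, k, hk, hz⟩
    exact mem_iUnion.2 ⟨j, mem_iUnion.2 ⟨⟨k, Finset.mem_range.2 hk⟩, hz⟩⟩
  refine (lintegral_mono_set hsub).trans ((lintegral_iUnion_le _ _).trans ?_)
  have hlev : ∀ j : ℕ, ∫⁻ z in ⋃ k : Finset.range (16 ^ j), P j k, ‖B' z‖ₑ ^ 2 * ‖G z‖ₑ ^ 2 ≤
      ENNReal.ofReal (K * N * ∑ k ∈ Finset.range (16 ^ j), b j k * r j ^ 2) := by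
    intro j
    refine (lintegral_iUnion_le _ _).trans ?_
    rw [tsum_fintype]
    rw [Finset.mul_sum, ENNReal.ofReal_sum_of_nonneg (fun k _ => by have := hb0 j k; positivity)]
    rw [← Finset.sum_coe_sort (Finset.range (16 ^ j)) (fun k => ENNReal.ofReal (K * N * (b j k * r j ^ 2)))]
    exact Finset.sum_le_sum fun k _ => hpiece j k (Finset.mem_range.1 k.2)
  refine (ENNReal.tsum_le_tsum hlev).trans ?_
  refine ENNReal.tsum_le_of_sum_range_le fun J => ?_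
  rw [← ENNReal.ofReal_sum_of_nonneg (fun j _ => mul_nonneg (by positivity)
    (Finset.sum_nonneg fun k _ => by have := hb0 j k; positivity)), ← Finset.mul_sum]
  refine ENNReal.ofReal_le_ofReal ?_
  calc K * N * ∑ j ∈ Finset.range J, ∑ k ∈ Finset.range (16 ^ j), b j k * r j ^ 2 ≤ K * N * C :=
        mul_le_mul_of_nonneg_left (hC J) (by positivity)
    _ = K * C * N := by ring

variable {ψ ξ : ℂ → ℂ}

/-- The boundedness of multiplication operators. -/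
theorem bdd (h : IsMap ψ ξ) {K : ℝ} (hK : TreeConst K) {B : ℂ → ℂ} (hB : DifferentiableOn ℂ B Dom)
    (hB1 : ∀ z ∈ Dom, ‖B z‖ ≤ 1) {b : ℕ → ℕ → ℝ} (hb0 : ∀ j k, 0 ≤ b j k)
    (hb : ∀ j k, k < 16 ^ j → ∀ z ∈ P j k, ‖deriv B z‖ ^ 2 ≤ b j k) {C : ℝ}
    (hC : ∀ J, ∑ j ∈ Finset.range J, ∑ k ∈ Finset.range (16 ^ j), b j k * r j ^ 2 ≤ C)
    {f : ℂ → ℂ} (hf : DifferentiableOn ℂ f (ball 0 1)) (hfin : normSq f < ⊤) :
    normSq (fun z => B (ψ z) * f z) ≤ ENNReal.ofReal (2 * (K * C) + 2) * normSq f := by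
  have hC0 : 0 ≤ C := by simpa using hC 0
  have hK0 := hK.1
  have hmb : (0 : ℂ) ∈ ball (0 : ℂ) 1 := mem_ball_self one_pos
  obtain ⟨a, ha⟩ : ∃ a, a = ‖f 0‖ₑ ^ 2 := ⟨_, rfl⟩
  obtain ⟨e, he⟩ : ∃ e, e = ∫⁻ z in ball (0 : ℂ) 1, ‖deriv f z‖ₑ ^ 2 := ⟨_, rfl⟩
  obtain ⟨c1, hc1⟩ : ∃ c1, c1 = ENNReal.ofReal (1 / Real.pi) := ⟨_, rfl⟩
  have hc1pos : c1 ≠ 0 := by
    rw [hc1, Ne, ENNReal.ofReal_eq_zero, not_le]
    positivity
  have hc1le : c1 ≤ 1 := by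
    rw [hc1, ← ENNReal.ofReal_one]
    apply ENNReal.ofReal_le_ofReal
    rw [div_le_one Real.pi_pos]
    linarith [Real.pi_gt_three]
  have hn : normSq f = a + c1 * e := by rw [ha, he, hc1]; rfl
  have hae : a ≠ ⊤ ∧ e ≠ ⊤ := by
    rw [hn] at hfin
    constructor
    · exact (lt_of_le_of_lt le_self_add hfin).ne
    · intro h
      rw [h, ENNReal.mul_top hc1pos, add_top] at hfin
      exact lt_irrefl _ hfin
  obtain ⟨N, hN⟩ : ∃ N, N = (a + e).toReal := ⟨_, rfl⟩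
  have hN' : ENNReal.ofReal N = a + e := by
    rw [hN]
    exact ENNReal.ofReal_toReal (ENNReal.add_ne_top.2 hae)
  -- the function on the domain
  obtain ⟨G, hG⟩ : ∃ G : ℂ → ℂ, G = f ∘ ξ := ⟨_, rfl⟩
  have hGd : DifferentiableOn ℂ G Dom := by
    rw [hG]
    exact hf.comp h.dξ h.mξ
  have hGψ : ∀ z ∈ ball (0 : ℂ) 1, G (ψ z) = f z := by
    intro z hz
    rw [hG]
    show f (ξ (ψ z)) = f z
    rw [h.left z hz]
  have hψd : ∀ z ∈ ball (0 : ℂ) 1, HasDerivAt ψ (deriv ψ z) z := fun z hz =>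
    (h.dψ.differentiableAt (isOpen_ball.mem_nhds hz)).hasDerivAt
  have hGd' : ∀ z ∈ ball (0 : ℂ) 1, HasDerivAt G (deriv G (ψ z)) (ψ z) := fun z hz =>
    (hGd.differentiableAt (isOpen_Dom.mem_nhds (h.mψ z hz))).hasDerivAt
  have hfder : ∀ z ∈ ball (0 : ℂ) 1, HasDerivAt f (deriv G (ψ z) * deriv ψ z) z := by
    intro z hz
    have h1 := (hGd' z hz).comp z (hψd z hz)
    refine h1.congr_of_eventuallyEq ?_
    filter_upwards [isOpen_ball.mem_nhds hz] with y hy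
    exact (hGψ y hy).symm
  have hE : E2 (deriv G) Dom = e := by
    unfold E2
    rw [h.cov, he]
    refine setLIntegral_congr_fun measurableSet_ball fun z hz => ?_
    rw [(hfder z hz).deriv, enorm_mul, mul_pow, mul_comm]
  have hE' : E2 (deriv G) Dom ≤ ENNReal.ofReal N := by
    rw [hE, hN']
    exact le_add_self
  have h0 : ‖G (p 0 0)‖ ^ 2 ≤ N := by
    rw [← h.zero, hGψ 0 hmb]
    have h1 : ENNReal.ofReal (‖f 0‖ ^ 2) ≤ ENNReal.ofReal N := by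
      rw [← enorm_sq_eq, ← ha, hN']
      exact le_self_add
    refine (ENNReal.ofReal_le_ofReal_iff ?_).1 h1
    rw [hN]
    exact ENNReal.toReal_nonneg
  have hsum := sum_pieces hK (B' := deriv B) hGd h0 hE' hb0 hb hC
  -- the derivative of the product
  have hFder : ∀ z ∈ ball (0 : ℂ) 1, HasDerivAt (fun z => B (ψ z) * f z)
      (deriv B (ψ z) * deriv ψ z * f z + B (ψ z) * deriv f z) z := by
    intro z hz
    have h1 : HasDerivAt B (deriv B (ψ z)) (ψ z) :=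
      (hB.differentiableAt (isOpen_Dom.mem_nhds (h.mψ z hz))).hasDerivAt
    exact (h1.comp z (hψd z hz)).mul (hf.differentiableAt (isOpen_ball.mem_nhds hz)).hasDerivAt
  have hmeas : AEMeasurable (fun z => 2 * ‖deriv f z‖ₑ ^ 2) (volume.restrict (ball (0 : ℂ) 1)) :=
    ((((hf.deriv isOpen_ball).continuousOn.aemeasurable measurableSet_ball).enorm).pow_const 2).const_mul 2
  have hmain : ∫⁻ z in ball (0 : ℂ) 1, ‖deriv (fun z => B (ψ z) * f z) z‖ₑ ^ 2 ≤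
      2 * ENNReal.ofReal (K * C * N) + 2 * e := by
    calc ∫⁻ z in ball (0 : ℂ) 1, ‖deriv (fun z => B (ψ z) * f z) z‖ₑ ^ 2
        ≤ ∫⁻ z in ball (0 : ℂ) 1, (2 * (‖deriv ψ z‖ₑ ^ 2 * (‖deriv B (ψ z)‖ₑ ^ 2 * ‖G (ψ z)‖ₑ ^ 2)) +
          2 * ‖deriv f z‖ₑ ^ 2) := by
          refine setLIntegral_mono' measurableSet_ball fun z hz => ?_
          rw [(hFder z hz).deriv]
          refine (enorm_add_sq_le _ _).trans ?_
          rw [hGψ z hz]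
          have h1 : ‖B (ψ z)‖ₑ ≤ 1 := by
            rw [← ofReal_norm, ← ENNReal.ofReal_one]
            exact ENNReal.ofReal_le_ofReal (hB1 _ (h.mψ z hz))
          gcongr 2 * ?_ + 2 * ?_
          · rw [enorm_mul, enorm_mul]
            apply le_of_eq
            ring
          · rw [enorm_mul, mul_pow]
            calc ‖B (ψ z)‖ₑ ^ 2 * ‖deriv f z‖ₑ ^ 2 ≤ 1 ^ 2 * ‖deriv f z‖ₑ ^ 2 := by gcongr
              _ = _ := by rw [one_pow, one_mul]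
      _ = 2 * (∫⁻ z in ball (0 : ℂ) 1, ‖deriv ψ z‖ₑ ^ 2 * (‖deriv B (ψ z)‖ₑ ^ 2 * ‖G (ψ z)‖ₑ ^ 2)) + 2 * e := by
          rw [lintegral_add_right' _ hmeas, lintegral_const_mul' _ _ (by norm_num),
            lintegral_const_mul' _ _ (by norm_num), he]
      _ = 2 * (∫⁻ w in Dom, ‖deriv B w‖ₑ ^ 2 * ‖G w‖ₑ ^ 2) + 2 * e := by
          rw [h.cov (fun w => ‖deriv B w‖ₑ ^ 2 * ‖G w‖ₑ ^ 2)]
      _ ≤ _ := by gcongr
  have hfirst : ‖B (ψ 0) * f 0‖ₑ ^ 2 ≤ a := by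
    rw [enorm_mul, mul_pow, ha]
    have h1 : ‖B (ψ 0)‖ₑ ≤ 1 := by
      rw [← ofReal_norm, ← ENNReal.ofReal_one]
      exact ENNReal.ofReal_le_ofReal (hB1 _ (h.mψ 0 hmb))
    calc ‖B (ψ 0)‖ₑ ^ 2 * ‖f 0‖ₑ ^ 2 ≤ 1 ^ 2 * ‖f 0‖ₑ ^ 2 := by gcongr
      _ = _ := by rw [one_pow, one_mul]
  have hKC : ENNReal.ofReal (K * C * N) = ENNReal.ofReal (K * C) * (a + e) := by
    rw [ENNReal.ofReal_mul (by positivity), hN']
  rw [hKC] at hmain
  rw [hn, ENNReal.ofReal_add (by positivity) (by norm_num), ENNReal.ofReal_mul (by norm_num)]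
  have h2 : ENNReal.ofReal 2 = 2 := by norm_num
  rw [h2]
  calc normSq (fun z => B (ψ z) * f z) = ‖B (ψ 0) * f 0‖ₑ ^ 2 +
        c1 * ∫⁻ z in ball (0 : ℂ) 1, ‖deriv (fun z => B (ψ z) * f z) z‖ₑ ^ 2 := by rw [hc1]; rfl
    _ ≤ a + c1 * (2 * (ENNReal.ofReal (K * C) * (a + e)) + 2 * e) := by gcongr
    _ = 2 * ENNReal.ofReal (K * C) * (c1 * a + c1 * e) + (a + 2 * (c1 * e)) := by ring
    _ ≤ 2 * ENNReal.ofReal (K * C) * (1 * a + c1 * e) + (2 * a + 2 * (c1 * e)) := by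
        gcongr
        exact le_mul_of_one_le_left' (by norm_num)
    _ = (2 * ENNReal.ofReal (K * C) + 2) * (a + c1 * e) := by ring

end Pool.Agent.Q92.DT
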