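import Mathlib

/-!
# The tree domain
-/

set_option autoImplicit false

open Set Filter Topology Metric

namespace Pool.Agent.Q92.DT

/-- the scale of level `j` -/
noncomputable def r (j : ℕ) : ℝ := (1 / 16) ^ j

/-- the width of the tubes of level `j` -/
noncomputable def w (j : ℕ) : ℝ := 1 / 1024 * (1 / 128) ^ j

theorem r_pos (j : ℕ) : 0 < r j := by unfold r; positivity
theorem w_pos (j : ℕ) : 0 < w j := by unfold w; positivity
theorem r_succ (j : ℕ) : r j = 16 * r (j + 1) := by unfold r; rw [pow_succ]; ring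
theorem w_succ (j : ℕ) : w j = 128 * w (j + 1) := by unfold w; rw [pow_succ]; ring
theorem r_zero : r 0 = 1 := by simp [r]
theorem w_le (j : ℕ) : 1024 * w j ≤ r j := by
  unfold w r
  rw [← mul_assoc]
  norm_num
  gcongr
  norm_num
theorem r_anti {i j : ℕ} (h : i ≤ j) : r j ≤ r i := by
  unfold r
  exact pow_le_pow_of_le_one (by norm_num) (by norm_num) h
theorem w_anti {i j : ℕ} (h : i ≤ j) : w j ≤ w i := by
  unfold w
  exact mul_le_mul_of_nonneg_left (pow_le_pow_of_le_one (by norm_num) (by norm_num) h) (by norm_num)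

/-- the position of the vertical tube `(j, k)` -/
noncomputable def c (j k : ℕ) : ℝ := (k + 1 / 2) * r j

/-- the vertical tube -/
noncomputable def V (j k : ℕ) : Set ℂ := Ioo (r (j + 1)) (r j + 128 * w j) ×ℂ Ioo (c j k) (c j k + w j)

/-- the cross bar -/
noncomputable def H (j k : ℕ) : Set ℂ := Ioo (r (j + 1)) (r (j + 1) + w j) ×ℂ Ioo (k * r j) ((k + 1) * r j)

/-- a piece of the domain -/
noncomputable def P (j k : ℕ) : Set ℂ := V j k ∪ H j k

/-- the domain -/
noncomputable def Dom : Set ℂ := {z | ∃ j k, k < 16 ^ j ∧ z ∈ P j k}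

theorem mem_V {j k : ℕ} {z : ℂ} : z ∈ V j k ↔ (r (j + 1) < z.re ∧ z.re < r j + 128 * w j) ∧
    (c j k < z.im ∧ z.im < c j k + w j) := Iff.rfl

theorem mem_H {j k : ℕ} {z : ℂ} : z ∈ H j k ↔ (r (j + 1) < z.re ∧ z.re < r (j + 1) + w j) ∧
    (k * r j < z.im ∧ z.im < (k + 1) * r j) := Iff.rfl

theorem c_lo (j k : ℕ) : k * r j < c j k := by
  unfold c
  nlinarith [r_pos j]

theorem c_hi (j k : ℕ) : c j k + w j < (k + 1) * r j := by
  unfold c
  have := w_le j
  have := w_pos j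
  nlinarith [r_pos j]

/-- coordinates of the points of a piece -/
theorem P_coord {j k : ℕ} {z : ℂ} (h : z ∈ P j k) : r (j + 1) < z.re ∧ z.re < r j + 128 * w j ∧
    k * r j < z.im ∧ z.im < (k + 1) * r j := by
  rcases h with h | h
  · obtain ⟨⟨h1, h2⟩, h3, h4⟩ := mem_V.1 h
    exact ⟨h1, h2, (c_lo j k).trans h3, h4.trans (c_hi j k)⟩
  · obtain ⟨⟨h1, h2⟩, h3, h4⟩ := mem_H.1 h
    have e1 := r_succ j
    have e2 := w_le j
    have e3 := w_pos j
    exact ⟨h1, by nlinarith [r_pos (j + 1)], h3, h4⟩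

theorem P_same {j k k' : ℕ} {z : ℂ} (h : z ∈ P j k) (h' : z ∈ P j k') : k = k' := by
  obtain ⟨-, -, h3, h4⟩ := P_coord h
  obtain ⟨-, -, h5, h6⟩ := P_coord h'
  have hr := r_pos j
  have a : (k : ℝ) < k' + 1 := lt_of_mul_lt_mul_right (h3.trans h6) hr.le
  have b : (k' : ℝ) < k + 1 := lt_of_mul_lt_mul_right (h5.trans h4) hr.le
  have a' : k < k' + 1 := by exact_mod_cast a
  have b' : k' < k + 1 := by exact_mod_cast b
  omega

theorem P_far {j j' k k' : ℕ} {z : ℂ} (hj : j + 2 ≤ j') (h : z ∈ P j k) (h' : z ∈ P j' k') : False := by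
  obtain ⟨h1, -, -, -⟩ := P_coord h
  obtain ⟨-, h2, -, -⟩ := P_coord h'
  have e1 := r_anti hj
  have e2 := r_succ (j + 1)
  have e3 := w_le j'
  have e4 := w_pos j'
  have e5 := r_pos (j + 2)
  nlinarith

theorem P_next {j k k' : ℕ} {z : ℂ} (h : z ∈ P j k) (h' : z ∈ P (j + 1) k') : k' / 16 = k := by
  obtain ⟨-, -, h3, h4⟩ := P_coord h
  obtain ⟨-, -, h5, h6⟩ := P_coord h'
  have hr := r_pos (j + 1)
  rw [r_succ j] at h3 h4
  have a : ((16 * k : ℕ) : ℝ) < ((k' + 1 : ℕ) : ℝ) := by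
    push_cast
    refine lt_of_mul_lt_mul_right (?_ : _ * r (j + 1) < _ * r (j + 1)) hr.le
    nlinarith
  have b : ((k' : ℕ) : ℝ) < ((16 * (k + 1) : ℕ) : ℝ) := by
    push_cast
    refine lt_of_mul_lt_mul_right (?_ : _ * r (j + 1) < _ * r (j + 1)) hr.le
    nlinarith
  have a' : 16 * k < k' + 1 := by exact_mod_cast a
  have b' : k' < 16 * (k + 1) := by exact_mod_cast b
  omega

/-- the intersection of a piece with its parent -/
theorem P_inter (j k : ℕ) : P (j + 1) k ∩ P j (k / 16) =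
    Ioo (r (j + 1)) (r (j + 1) + 128 * w (j + 1)) ×ℂ Ioo (c (j + 1) k) (c (j + 1) k + w (j + 1)) := by
  ext z
  constructor
  · rintro ⟨h1, h2⟩
    obtain ⟨h3, -, -, -⟩ := P_coord h2
    rcases h1 with h1 | h1
    · obtain ⟨⟨h4, h5⟩, h6⟩ := mem_V.1 h1
      exact ⟨⟨h3, h5⟩, h6⟩
    · obtain ⟨⟨h4, h5⟩, -⟩ := mem_H.1 h1
      have e1 := r_succ (j + 1)
      have e2 := w_le (j + 1)
      have e3 := w_pos (j + 1)
      have e4 := r_pos (j + 2)
      have : r (j + 1 + 1) = r (j + 2) := rfl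
      nlinarith
  · rintro ⟨⟨h1, h2⟩, h3, h4⟩
    refine ⟨Or.inl (mem_V.2 ⟨⟨?_, h2⟩, h3, h4⟩), Or.inr (mem_H.2 ⟨⟨h1, ?_⟩, ?_, ?_⟩)⟩
    · exact (lt_of_lt_of_le (by rw [r_succ (j + 1)]; nlinarith [r_pos (j + 1 + 1)]) h1.le)
    · rw [w_succ j]
      exact h2
    · have h5 := (c_lo (j + 1) k).trans h3
      refine lt_of_le_of_lt ?_ h5
      rw [r_succ j]
      have h6 : ((16 * (k / 16) : ℕ) : ℝ) ≤ (k : ℝ) := by exact_mod_cast Nat.mul_div_le k 16
      push_cast at h6
      nlinarith [r_pos (j + 1)]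
    · have h5 := h4.trans (c_hi (j + 1) k)
      refine lt_of_lt_of_le h5 ?_
      rw [r_succ j]
      have h7 : k + 1 ≤ 16 * (k / 16 + 1) := by omega
      have h6 : ((k + 1 : ℕ) : ℝ) ≤ ((16 * (k / 16 + 1) : ℕ) : ℝ) := by exact_mod_cast h7
      push_cast at h6
      nlinarith [r_pos (j + 1)]

theorem isOpen_V (j k : ℕ) : IsOpen (V j k) := isOpen_Ioo.reProdIm isOpen_Ioo
theorem isOpen_H (j k : ℕ) : IsOpen (H j k) := isOpen_Ioo.reProdIm isOpen_Ioo
theorem isOpen_P (j k : ℕ) : IsOpen (P j k) := (isOpen_V j k).union (isOpen_H j k)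

theorem isOpen_Dom : IsOpen Dom := by
  have : Dom = ⋃ (j : ℕ) (k : ℕ) (_ : k < 16 ^ j), P j k := by
    ext z
    simp [Dom]
  rw [this]
  exact isOpen_iUnion fun j => isOpen_iUnion fun k => isOpen_iUnion fun _ => isOpen_P j k

/-- the centre of a piece -/
noncomputable def p (j k : ℕ) : ℂ := ⟨r (j + 1) + w j / 2, c j k + w j / 2⟩

theorem p_mem_V (j k : ℕ) : p j k ∈ V j k := by
  rw [mem_V]
  have e1 := r_succ j
  have e3 := w_pos j
  have e4 := r_pos (j + 1)
  simp only [p]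
  exact ⟨⟨by linarith, by nlinarith⟩, by linarith, by linarith⟩

theorem p_mem_H (j k : ℕ) : p j k ∈ H j k := by
  rw [mem_H]
  have e1 := c_lo j k
  have e2 := c_hi j k
  have e3 := w_pos j
  simp only [p]
  exact ⟨⟨by linarith, by linarith⟩, by linarith, by linarith⟩

theorem convex_rect (a b c d : ℝ) : Convex ℝ (Ioo a b ×ℂ Ioo c d) :=
  ((convex_Ioo a b).linear_preimage Complex.reLm).inter ((convex_Ioo c d).linear_preimage Complex.imLm)

theorem starConvex_P (j k : ℕ) : StarConvex ℝ (p j k) (P j k) := by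
  have h1 : Convex ℝ (V j k) := convex_rect _ _ _ _
  have h2 : Convex ℝ (H j k) := convex_rect _ _ _ _
  exact (h1.starConvex (p_mem_V j k)).union (h2.starConvex (p_mem_H j k))

theorem simplyConnected_P (j k : ℕ) : IsSimplyConnected (P j k) := by
  have : ContractibleSpace (P j k) := (starConvex_P j k).contractibleSpace ⟨_, Or.inl (p_mem_V j k)⟩
  have h : SimplyConnectedSpace (P j k) := inferInstance
  exact h

theorem preconnected_P (j k : ℕ) : IsPreconnected (P j k) :=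
  ((starConvex_P j k).isPathConnected (Or.inl (p_mem_V j k))).isConnected.isPreconnected

/-- a point in a piece and its parent -/
noncomputable def q (j k : ℕ) : ℂ := ⟨r j + 64 * w j, c j k + w j / 2⟩

theorem q_mem (j k : ℕ) : q (j + 1) k ∈ P (j + 1) k ∩ P j (k / 16) := by
  rw [P_inter]
  have e := w_pos (j + 1)
  simp only [q]
  exact ⟨⟨by show r (j + 1) < _; dsimp only; linarith, by show _ < r (j + 1) + _; dsimp only; linarith⟩,
    by show c (j + 1) k < _; dsimp only; linarith, by show _ < c (j + 1) k + _; dsimp only; linarith⟩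

theorem preconnected_inter (j k : ℕ) : IsPreconnected (P (j + 1) k ∩ P j (k / 16)) := by
  rw [P_inter]
  exact (convex_rect _ _ _ _).isPreconnected

theorem P_sub {j k : ℕ} (hk : k < 16 ^ j) : P j k ⊆ Dom := fun _ hz => ⟨j, k, hk, hz⟩

theorem div_lt {j k : ℕ} (hk : k < 16 ^ (j + 1)) : k / 16 < 16 ^ j := by
  rw [Nat.div_lt_iff_lt_mul (by norm_num)]
  rwa [pow_succ] at hk

theorem connected_aux (j : ℕ) : ∀ k : ℕ, k < 16 ^ j →
    ∃ t ⊆ Dom, p 0 0 ∈ t ∧ P j k ⊆ t ∧ IsPreconnected t := by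
  induction j with
  | zero =>
    intro k hk
    have : k = 0 := by simpa using hk
    subst this
    exact ⟨P 0 0, P_sub (by simp), Or.inl (p_mem_V 0 0), le_rfl, preconnected_P 0 0⟩
  | succ j ih =>
    intro k hk
    obtain ⟨t, h1, h2, h3, h4⟩ := ih (k / 16) (div_lt hk)
    refine ⟨t ∪ P (j + 1) k, union_subset h1 (P_sub hk), Or.inl h2, subset_union_right, ?_⟩
    exact h4.union (q (j + 1) k) (h3 (q_mem j k).2) (q_mem j k).1 (preconnected_P _ _)

theorem connected_Dom : IsConnected Dom := by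
  refine ⟨⟨p 0 0, 0, 0, by simp, Or.inl (p_mem_V 0 0)⟩, ?_⟩
  refine isPreconnected_of_forall (p 0 0) fun y hy => ?_
  obtain ⟨j, k, hk, hy⟩ := hy
  obtain ⟨t, h1, h2, h3, h4⟩ := connected_aux j k hk
  exact ⟨t, h1, h2, h3 hy, h4⟩

theorem Dom_coord {z : ℂ} (hz : z ∈ Dom) : 0 < z.re ∧ z.re < 9 / 8 ∧ 0 < z.im ∧ z.im < 1 := by
  obtain ⟨j, k, hk, hz⟩ := hz
  obtain ⟨h1, h2, h3, h4⟩ := P_coord hz
  have e1 := r_pos (j + 1)
  have e2 := r_pos j
  have e3 := w_le j
  have e4 : r j ≤ 1 := by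
    rw [← r_zero]
    exact r_anti (Nat.zero_le j)
  have e5 : ((k + 1 : ℕ) : ℝ) ≤ ((16 ^ j : ℕ) : ℝ) := by exact_mod_cast hk
  have e6 : (16 : ℝ) ^ j * r j = 1 := by
    unfold r
    rw [← mul_pow]
    norm_num
  push_cast at e5
  refine ⟨by linarith, by nlinarith [w_pos j], ?_, ?_⟩
  · exact lt_of_le_of_lt (by positivity) h3
  · exact lt_of_lt_of_le h4 ((mul_le_mul_of_nonneg_right e5 e2.le).trans_eq e6)

theorem bounded_Dom : Bornology.IsBounded Dom := by
  rw [isBounded_iff_forall_norm_le]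
  refine ⟨3, fun z hz => ?_⟩
  obtain ⟨h1, h2, h3, h4⟩ := Dom_coord hz
  refine (Complex.norm_le_abs_re_add_abs_im z).trans ?_
  rw [abs_of_pos h1, abs_of_pos h3]
  linarith

/-- Continuous square roots of functions without zeros. -/
theorem sqrt_cont {u : ℂ → ℂ} (hu : ContinuousOn u Dom) (h0 : ∀ z ∈ Dom, u z ≠ 0) :
    ∃ s : ℂ → ℂ, ContinuousOn s Dom ∧ ∀ z ∈ Dom, s z ^ 2 = u z := by
  classical
  have key : ∀ j k : ℕ, ∃ f : ℂ → ℂ, k < 16 ^ j → ContinuousOn f (P j k) ∧ ∀ z, f z ^ 2 = u z := by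
    intro j k
    by_cases hk : k < 16 ^ j
    · obtain ⟨f, h1, h2⟩ := Complex.exists_continuousOn_pow_eq (simplyConnected_P j k) (isOpen_P j k)
        (hu.mono (P_sub hk)) (by rintro ⟨z, hz, h⟩; exact h0 z (P_sub hk hz) h) (n := 2) (by norm_num)
      exact ⟨f, fun _ => ⟨h1, h2⟩⟩
    · exact ⟨u, fun h => absurd h hk⟩
  choose f hf using key
  -- the signs
  let sg : ℕ → ℕ → ℂ := fun j => Nat.rec (motive := fun _ => ℕ → ℂ) (fun _ => 1)
    (fun j ih k => ih (k / 16) * (f j (k / 16) (q (j + 1) k) / f (j + 1) k (q (j + 1) k))) j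
  have sg_succ : ∀ j k, sg (j + 1) k = sg j (k / 16) * (f j (k / 16) (q (j + 1) k) / f (j + 1) k (q (j + 1) k)) :=
    fun j k => rfl
  have hne : ∀ j k, k < 16 ^ j → ∀ z ∈ P j k, f j k z ≠ 0 := by
    intro j k hk z hz h
    have h1 := (hf j k hk).2 z
    rw [h] at h1
    exact h0 z (P_sub hk hz) (by rw [← h1]; ring)
  have hsg : ∀ j, ∀ k, k < 16 ^ j → sg j k ^ 2 = 1 := by
    intro j
    induction j with
    | zero => intro k _; show (1 : ℂ) ^ 2 = 1; norm_num
    | succ j ih =>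
      intro k hk
      have hk' := div_lt hk
      have hq := q_mem j k
      rw [sg_succ, mul_pow, ih _ hk', one_mul, div_pow, (hf _ _ hk').2, (hf _ _ hk).2]
      exact div_self (h0 _ (P_sub hk hq.1))
  -- the local roots with the right signs
  let τ : ℕ → ℕ → ℂ → ℂ := fun j k z => sg j k * f j k z
  have hτc : ∀ j k, k < 16 ^ j → ContinuousOn (τ j k) (P j k) := fun j k hk =>
    continuousOn_const.mul (hf j k hk).1
  have hτ2 : ∀ j k, k < 16 ^ j → ∀ z, τ j k z ^ 2 = u z := by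
    intro j k hk z
    show (sg j k * f j k z) ^ 2 = u z
    rw [mul_pow, hsg j k hk, one_mul, (hf j k hk).2]
  have hagree : ∀ j k, k < 16 ^ (j + 1) → EqOn (τ (j + 1) k) (τ j (k / 16)) (P (j + 1) k ∩ P j (k / 16)) := by
    intro j k hk
    have hk' := div_lt hk
    refine (preconnected_inter j k).eq_of_sq_eq ((hτc _ _ hk).mono inter_subset_left)
      ((hτc _ _ hk').mono inter_subset_right) ?_ ?_ (q_mem j k) ?_
    · intro z _
      show τ (j + 1) k z ^ 2 = τ j (k / 16) z ^ 2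
      rw [hτ2 _ _ hk, hτ2 _ _ hk']
    · intro z hz h
      have h1 := hτ2 j (k / 16) hk' z
      rw [h] at h1
      exact h0 z (P_sub hk hz.1) (by rw [← h1]; ring)
    · show sg (j + 1) k * f (j + 1) k (q (j + 1) k) = sg j (k / 16) * f j (k / 16) (q (j + 1) k)
      rw [sg_succ, mul_assoc, div_mul_cancel₀ _ (hne _ _ hk _ (q_mem j k).1)]
  have hall : ∀ j k j' k' z, k < 16 ^ j → k' < 16 ^ j' → z ∈ P j k → z ∈ P j' k' → τ j k z = τ j' k' z := by
    have h1 : ∀ j k j' k' z, j ≤ j' → k < 16 ^ j → k' < 16 ^ j' → z ∈ P j k → z ∈ P j' k' →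
        τ j' k' z = τ j k z := by
      intro j k j' k' z hj hk hk' hz hz'
      rcases Nat.lt_or_ge j' (j + 1) with h | h
      · have : j' = j := by omega
        subst this
        rw [P_same hz hz']
      · rcases Nat.lt_or_ge j' (j + 2) with h2 | h2
        · have : j' = j + 1 := by omega
          subst this
          have h3 := P_next hz hz'
          subst h3
          exact hagree j k' hk' ⟨hz', hz⟩
        · exact (P_far h2 hz hz').elim
    intro j k j' k' z hk hk' hz hz'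
    rcases le_total j j' with h | h
    · exact (h1 j k j' k' z h hk hk' hz hz').symm
    · exact h1 j' k' j k z h hk' hk hz' hz
  have hch : ∀ z : ℂ, ∃ jk : ℕ × ℕ, z ∈ Dom → jk.2 < 16 ^ jk.1 ∧ z ∈ P jk.1 jk.2 := by
    intro z
    by_cases hz : z ∈ Dom
    · obtain ⟨j, k, hk, hz'⟩ := hz
      exact ⟨(j, k), fun _ => ⟨hk, hz'⟩⟩
    · exact ⟨(0, 0), fun h => absurd h hz⟩
  choose jk hjk using hch
  refine ⟨fun z => τ (jk z).1 (jk z).2 z, ?_, fun z hz => hτ2 _ _ (hjk z hz).1 z⟩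
  intro z hz
  obtain ⟨h1, h2⟩ := hjk z hz
  have hcont : ContinuousAt (τ (jk z).1 (jk z).2) z :=
    (hτc _ _ h1).continuousAt ((isOpen_P _ _).mem_nhds h2)
  refine (hcont.congr ?_).continuousWithinAt
  filter_upwards [(isOpen_P (jk z).1 (jk z).2).mem_nhds h2] with y hy
  obtain ⟨h3, h4⟩ := hjk y (P_sub h1 hy)
  exact hall _ _ _ _ y h1 h3 hy h4

/-- A continuous square root of a holomorphic function is holomorphic. -/
theorem sqrt_diff {W : Set ℂ} (hW : IsOpen W) {u s : ℂ → ℂ} (hu : DifferentiableOn ℂ u W)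
    (h0 : ∀ z ∈ W, u z ≠ 0) (hs : ContinuousOn s W) (h2 : ∀ z ∈ W, s z ^ 2 = u z) : DifferentiableOn ℂ s W := by
  intro z hz
  apply DifferentiableAt.differentiableWithinAt
  have hsz : s z ≠ 0 := by
    intro h
    have := h2 z hz
    rw [h] at this
    exact h0 z hz (by rw [← this]; ring)
  have hc : ContinuousAt s z := hs.continuousAt (hW.mem_nhds hz)
  have hd := (hu.differentiableAt (hW.mem_nhds hz)).hasDerivAt
  have hd' := hasDerivAt_iff_tendsto_slope.1 hd
  have h3 : Tendsto (fun y => s y + s z) (𝓝[≠] z) (𝓝 (s z + s z)) :=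
    (hc.tendsto.add_const _).mono_left nhdsWithin_le_nhds
  have hne : s z + s z ≠ 0 := by
    rw [← two_mul]
    exact mul_ne_zero two_ne_zero hsz
  have h4 := hd'.div h3 hne
  have h5 : HasDerivAt s (deriv u z / (s z + s z)) z := by
    rw [hasDerivAt_iff_tendsto_slope]
    refine h4.congr' ?_
    have e1 : ∀ᶠ y in 𝓝[≠] z, s y + s z ≠ 0 := h3.eventually_ne hne
    have e2 : ∀ᶠ y in 𝓝[≠] z, y ∈ W := mem_nhdsWithin_of_mem_nhds (hW.mem_nhds hz)
    filter_upwards [e1, e2, self_mem_nhdsWithin] with y hy1 hy2 hy3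
    have hyz : y - z ≠ 0 := sub_ne_zero.2 hy3
    rw [Pi.div_apply, slope_def_field, slope_def_field, ← h2 y hy2, ← h2 z hz]
    field_simp
    ring
  exact h5.differentiableAt

end Pool.Agent.Q92.DT
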