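import Pool.Agent.Q92.DT.Geo
import Pool.Agent.Helper114.RMT
import Pool.Agent.H712R2.Par

/-!
# The Riemann map onto the tree domain
-/

set_option autoImplicit false

open MeasureTheory Set Filter Topology Metric
open scoped ENNReal

namespace Pool.Agent.Q92.DT

/-- `ψ` is a conformal map of the disc onto the tree domain with inverse `ξ`. -/
structure IsMap (ψ ξ : ℂ → ℂ) : Prop where
  dψ : DifferentiableOn ℂ ψ (ball 0 1)
  dξ : DifferentiableOn ℂ ξ Dom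
  mψ : ∀ z ∈ ball (0 : ℂ) 1, ψ z ∈ Dom
  mξ : ∀ w ∈ Dom, ξ w ∈ ball (0 : ℂ) 1
  left : ∀ z ∈ ball (0 : ℂ) 1, ξ (ψ z) = z
  right : ∀ w ∈ Dom, ψ (ξ w) = w
  zero : ψ 0 = p 0 0

theorem exists_map : ∃ ψ ξ : ℂ → ℂ, IsMap ψ ξ := by
  have hp : p 0 0 ∈ Dom := P_sub (by simp) (Or.inl (p_mem_V 0 0))
  obtain ⟨ξ, h1, h2, h3, h4⟩ := Pool.Agent.Helper114.RMT.riemann_mapping isOpen_Dom connected_Dom bounded_Dom
    (fun u hu h0 => by
      obtain ⟨s, hs1, hs2⟩ := sqrt_cont hu.continuousOn h0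
      exact ⟨s, sqrt_diff isOpen_Dom hu h0 hs1 hs2, hs2⟩) hp
  have hm : ∀ w ∈ Dom, ξ w ∈ ball (0 : ℂ) 1 := fun w hw => h3 ▸ mem_image_of_mem ξ hw
  have hsurj : ∀ z ∈ ball (0 : ℂ) 1, ∃ w ∈ Dom, ξ w = z := fun z hz => by
    rw [← h3] at hz
    exact hz
  have hleft : ∀ w ∈ Dom, Function.invFunOn ξ Dom (ξ w) = w := fun w hw => h2.leftInvOn_invFunOn hw
  have hright : ∀ z ∈ ball (0 : ℂ) 1, ξ (Function.invFunOn ξ Dom z) = z := by
    intro z hz
    obtain ⟨w, hw, rfl⟩ := hsurj z hz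
    rw [hleft w hw]
  have hmap : ∀ z ∈ ball (0 : ℂ) 1, Function.invFunOn ξ Dom z ∈ Dom := by
    intro z hz
    obtain ⟨w, hw, rfl⟩ := hsurj z hz
    rw [hleft w hw]
    exact hw
  have hder : ∀ w ∈ Dom, HasStrictDerivAt (Function.invFunOn ξ Dom) (deriv ξ w)⁻¹ (ξ w) := by
    intro w hw
    have hs : HasStrictDerivAt ξ (deriv ξ w) w := (h1.analyticAt (isOpen_Dom.mem_nhds hw)).hasStrictDerivAt
    apply hs.to_local_left_inverse (Pool.Agent.H712R2.M.deriv_ne_zero_of_injOn' isOpen_Dom h1 h2 hw)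
    filter_upwards [isOpen_Dom.mem_nhds hw] with x hx
    exact hleft x hx
  refine ⟨Function.invFunOn ξ Dom, ξ, ?_, h1, hmap, hm, hright, hleft, ?_⟩
  · intro z hz
    obtain ⟨w, hw, rfl⟩ := hsurj z hz
    exact (hder w hw).hasDerivAt.differentiableAt.differentiableWithinAt
  · rw [← h4]
    exact hleft _ hp

variable {ψ ξ : ℂ → ℂ}

theorem IsMap.image (h : IsMap ψ ξ) : ψ '' ball 0 1 = Dom := by
  apply Subset.antisymm
  · rintro _ ⟨z, hz, rfl⟩
    exact h.mψ z hz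
  · intro w hw
    exact ⟨ξ w, h.mξ w hw, h.right w hw⟩

theorem det_mul (a : ℂ) :
    ((ContinuousLinearMap.toSpanSingleton ℂ a).restrictScalars ℝ).det = ‖a‖ ^ 2 := by
  have h : (((ContinuousLinearMap.toSpanSingleton ℂ a).restrictScalars ℝ : ℂ →L[ℝ] ℂ) :
      ℂ →ₗ[ℝ] ℂ) = LinearMap.mulLeft ℝ a := by
    ext z <;> simp [mul_comm]
  rw [ContinuousLinearMap.det, h]
  have h2 : LinearMap.det (LinearMap.mulLeft ℝ a) = Algebra.norm ℝ a := by
    rw [Algebra.norm_apply]; rfl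
  rw [h2, Algebra.norm_complex_apply, Complex.normSq_eq_norm_sq]

/-- The change of variables. -/
theorem IsMap.cov (h : IsMap ψ ξ) (Q : ℂ → ℝ≥0∞) :
    ∫⁻ w in Dom, Q w = ∫⁻ z in ball (0 : ℂ) 1, ‖deriv ψ z‖ₑ ^ 2 * Q (ψ z) := by
  have hinj : InjOn ψ (ball (0 : ℂ) 1) := by
    intro z hz w hw e
    rw [← h.left z hz, e, h.left w hw]
  have h1 := lintegral_image_eq_lintegral_abs_det_fderiv_mul (volume : Measure ℂ)
    (s := ball (0 : ℂ) 1) (f := ψ)
    (f' := fun z => (ContinuousLinearMap.toSpanSingleton ℂ (deriv ψ z)).restrictScalars ℝ)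
    measurableSet_ball (fun z hz =>
      ((h.dψ.differentiableAt (isOpen_ball.mem_nhds hz)).hasDerivAt.hasFDerivAt.restrictScalars ℝ).hasFDerivWithinAt)
    hinj Q
  rw [h.image] at h1
  simp only [det_mul] at h1
  rw [h1]
  refine lintegral_congr fun z => ?_
  rw [abs_of_nonneg (by positivity), ENNReal.ofReal_pow (norm_nonneg _), ofReal_norm]

end Pool.Agent.Q92.DT
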